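import Pool.Agent.Lib.MP_33b3f9_ag.M8.CP.Basis

/-!
Division of points.
-/

set_option autoImplicit false
set_option linter.unusedSectionVars false

namespace M8.CP

open Polynomial Filter

namespace TD

variable {k : Type} [Field k] [IsAlgClosed k] {p : ℕ} [Fact p.Prime] [CharP k p]
  {Vt W ι : Type} [AddCommGroup Vt] [Module ℚ Vt] [AddCommGroup W] [Fintype ι]
  (D : TD k p Vt W ι)

theorem div_tf {N : ℕ} (hN : N ≠ 0) {x : Vt} (h : N • x = 0) : x = 0 := by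
  rw [← Nat.cast_smul_eq_nsmul ℚ] at h
  exact (smul_eq_zero.1 h).resolve_left (Nat.cast_ne_zero.2 hN)

theorem div_pol_nsmul (a : ℤ[X]) (N : ℕ) (z : Vt × W) : D.pol a (N • z) = N • D.pol a z :=
  Prod.ext (map_nsmul (D.polV a) N z.1) (map_nsmul (D.polW a) N z.2)

/-- `artin` for the maps `kp (trl (r a, 0))` of `lam_card` (distinct by `tau_eq_iff`), `kp_trl_nm`,
`deg_Fm` -/
theorem art {N : ℕ} (hN : ¬ p ∣ N) {c : D.KK}
    (h : ∀ x : Vt, N • x ∈ D.Lam → D.kp (trl (x, (0 : W))) c = c) : c ∈ D.Fm N := by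
  classical
  have h0 : N ≠ 0 := fun e => hN (e ▸ dvd_zero p)
  obtain ⟨r, h1, h2⟩ := D.lam_card N hN
  have := D.fin_Fm h0
  have hi : Function.Injective fun a => D.kp (trl (r a, (0 : W))) := fun a b e =>
    h2 a b ((D.tau_eq_iff (u := (r a, 0)) (v := (r b, 0))).1
      (AlgEquiv.ext fun x => DFunLike.congr_fun e x)).1
  refine artin (D.Fm N) (Finset.univ.image fun a => D.kp (trl (r a, (0 : W)))) ?_ ?_ c ?_
  · simp only [Finset.mem_image]
    rintro _ ⟨a, -, rfl⟩ _ ⟨x, rfl⟩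
    exact D.kp_trl_nm h0 (u := (r a, 0)) (h1 a) (by rw [smul_zero]; exact zero_mem _) x
  · rw [Finset.card_image_of_injective _ hi, D.deg_Fm h0]
    simp
  · simp only [Finset.mem_image]
    rintro _ ⟨a, -, rfl⟩
    exact h _ (h1 a)

/-- `nm N` is bijective; `a' = pol a ∘ (nm N)⁻¹`; `desc`, `quo_nm`, `art`, `Ka_pol_fix`. -/
theorem div_N {N : ℕ} (hN : ¬ p ∣ N) (a : ℤ[X])
    (h : ∀ x : Vt, N • x ∈ D.Lam → D.polV a x ∈ D.Lam) :
    ∃ a', D.InA a' ∧ N • a' = D.pol a := by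
  have h0 : N ≠ 0 := fun e => hN (e ▸ dvd_zero p)
  choose s hs using D.nsmul_surj h0
  have e : ∀ z, s (N • z) = z := fun z => by
    have h1 : N • (s (N • z) - z) = 0 := by rw [smul_sub, hs, sub_self]
    exact sub_eq_zero.1 (Prod.ext (div_tf h0 (congrArg Prod.fst h1))
      (D.W_nsmul_inj hN (congrArg Prod.snd h1)))
  refine ⟨D.pol a ∘ s, desc (D.good_nm h0) (D.quo_nm h0) (D.inA_pol a) (fun c hc => ?_)
    fun i z => congrArg (fun w => D.X i (D.pol a w)) (e z), funext fun z => ?_⟩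
  · exact D.art hN fun x hx => D.Ka_pol_fix a (u := (x, 0)) (h x hx)
      (by rw [map_zero]; exact zero_mem _) hc
  · exact (D.div_pol_nsmul a N (s z)).symm.trans (congrArg _ (hs z))

variable {D}

/-- `desc` along `Vj j`; `Vj_eq_iff`, `Ka_fix` with `e = 1`, `fixed_Vj` -/
theorem div_V (h : D.Ord) {a : Vt × W → Vt × W} (ha : D.InA a) {j : ℕ}
    (h1 : ∀ y : W, p ^ j • y = 0 → ∀ i z, D.X i (a (z + (0, y))) = D.X i (a z))
    {s : Vt × W → Vt × W} (hs : ∀ z, D.Vj j (s z) = z) : D.InA (a ∘ s) := by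
  refine desc (good_Vj h j) (D.quo_Vj j) ha (fun c hc => fixed_Vj h fun y hy => ?_) fun i z => ?_
  · exact Ka_fix (D.good_trl _) 1 (fun _ => one_ne_zero)
      (fun i z => (h1 y hy i z).trans (one_mul _).symm) hc
  · obtain ⟨y, hy, e⟩ := (D.Vj_eq_iff j z _).1 (hs (D.Vj j z))
    rw [Function.comp, e, h1 y hy]

theorem div_V_pol (h : D.Ord) (a : ℤ[X]) {j : ℕ}
    (h1 : ∀ y : W, p ^ j • y = 0 → D.polW a y ∈ D.C) :
    ∃ a', D.InA a' ∧ D.Vj j ∘ a' = D.pol a := by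
  choose s hs using D.Vj_surj j
  refine ⟨D.pol a ∘ s, div_V h (D.inA_pol a) (fun y hy i z => ?_) hs, funext fun z => ?_⟩
  · rw [D.pol_map_add, ← D.mem_C_iff.1 (h1 y hy) i (D.pol a z)]
    exact congrArg (fun w => D.X i (D.pol a z + (w, _))) (map_zero _)
  · exact (D.Vj_pol j a (s z)).trans (congrArg _ (hs z))

variable (D)

/-- the hypotheses of the main theorem -/
structure Hyp (δ : ℤ[X]) (m j d : ℕ) : Prop where
  ord : D.Ord
  deg : δ.natDegree ≤ m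
  cop : ¬ p ∣ d
  nrm : D.polV (δ * recip p m δ) =
    D.polV (Polynomial.C ((p : ℤ) ^ (2 * j) * d) * Polynomial.X ^ m)
  kil : ∀ y : W, p ^ j • y = 0 → D.polW δ y ∈ D.C
  kil' : ∀ y : W, p ^ j • y = 0 → D.polW (recip p m δ) y ∈ D.C

/-- `p ^ (-j) δ` on `Vt` -/
noncomputable def g0 (δ : ℤ[X]) (j : ℕ) (x : Vt) : Vt := ((p : ℚ) ^ j)⁻¹ • D.polV δ x

/-- the quotient of `δ` by `p ^ j` -/
structure IsGam (δ : ℤ[X]) (j : ℕ) (γ : Vt × W → Vt × W) : Prop where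
  good : D.Good γ
  div : p ^ j • γ = D.pol δ
  fst : ∀ z, (γ z).1 = D.g0 δ j z.1
  add : ∀ z z', (γ (z + z')).2 - ((γ z).2 + (γ z').2) ∈ D.C
  vt : ∀ x : Vt, (γ (x, 0)).2 ∈ D.C

variable {D} {δ : ℤ[X]} {m j d : ℕ}

/-- `polV (X ^ m)` is bijective, `p ^ (2 j) d ≠ 0` in `ℚ` -/
theorem Hyp.surj (h : D.Hyp δ m j d) : Function.Surjective (D.polV δ) := by
  intro x
  have hp : (p : ℚ) ≠ 0 := Nat.cast_ne_zero.2 (Fact.out : p.Prime).ne_zero
  have hd : (d : ℚ) ≠ 0 := Nat.cast_ne_zero.2 fun e => h.cop (e ▸ dvd_zero p)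
  obtain ⟨w, hw⟩ := Module.End.iterate_surjective
    (f' := (D.sV.toAddMonoidHom.toIntLinearMap : Module.End ℤ Vt)) D.sV.surjective m
    (((p : ℚ) ^ (2 * j) * d)⁻¹ • x)
  refine ⟨D.polV (recip p m δ) w, ?_⟩
  have e := LinearMap.congr_fun h.nrm w
  simp only [polV, map_mul, aeval_C, map_pow, aeval_X, Module.End.mul_apply] at e
  rw [polV, polV, e, hw, ← Module.End.mul_apply, ← map_pow, ← map_mul,
    Module.algebraMap_end_apply, ← Int.cast_smul_eq_zsmul ℚ, smul_smul]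
  push_cast
  rw [mul_inv_cancel₀ (mul_ne_zero (pow_ne_zero _ hp) hd), one_smul]

/-- `div_pi` for `pol δ` (`good_pol`, `pq_Phi`, `bb_pol`, `Phi_of_mem`; `y = polW (X ^ m) y'`), `desc` along
`sg^[j]`. -/
theorem Hyp.inA_div (h : D.Hyp δ m j d) : D.InA (D.pol δ ∘ D.sg.symm^[j]) := by
  have hb := D.good_pol h.surj
  refine desc (D.good_sg j) (D.quo_sg j) (D.inA_pol δ) ?_ fun i z =>
    congrArg (fun w => D.X i (D.pol δ w))
      (Function.LeftInverse.iterate D.sg.symm_apply_apply j z)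
  rw [Ka_good hb]
  refine div_pi h.ord hb fun y hy => ?_
  have hm : Function.Bijective (D.polW (Polynomial.X ^ m)) := by
    rw [polW, map_pow, aeval_X]
    exact Module.End.iterate_bijective D.sW.bijective m
  obtain ⟨y', rfl⟩ := hm.2 y
  rw [D.pq_Phi hb, D.bb_pol δ m h.deg]
  exact D.Phi_of_mem (h.kil' y' (hm.1 (by rw [map_nsmul, hy, map_zero])))

/-- `γ = pol δ ∘ sg.symm^[j] ∘ s` for a section `s` of `Vj j`; `s' = sg.symm^[j] ∘ s` has
`p ^ j • s' z = z`. `div_V`, `domi`. -/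
theorem Hyp.exists_gam (h : D.Hyp δ m j d) : ∃ γ, D.IsGam δ j γ := by
  have hp : p ^ j ≠ 0 := pow_ne_zero _ (Fact.out : p.Prime).ne_zero
  have hq : (p : ℚ) ^ j ≠ 0 := by exact_mod_cast hp
  choose s hs using D.Vj_surj j
  have key : ∀ z z' : Vt × W, p ^ j • z' = p ^ j • z →
      (D.pol δ z').1 = (D.pol δ z).1 ∧ (D.pol δ z').2 - (D.pol δ z).2 ∈ D.C := fun z z' e => by
    have h1 : p ^ j • (z' - z) = 0 := by rw [smul_sub, e, sub_self]
    refine ⟨congrArg (D.polV δ) (sub_eq_zero.1 (div_tf hp (congrArg Prod.fst h1))), ?_⟩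
    have h2 := h.kil _ (congrArg Prod.snd h1)
    rwa [Prod.snd_sub, map_sub] at h2
  have hA := div_V h.ord h.inA_div (j := j) (fun y hy i z => by
    have h1 := key _ _ ((D.Vj_eq_iff j z _).2 ⟨y, hy, rfl⟩)
    exact D.apply_congr h1.1 h1.2 (D.X_mem i)) hs
  have hs' : ∀ z, p ^ j • (D.sg.symm^[j] ∘ s) z = z := hs
  rw [Function.comp_assoc] at hA
  generalize D.sg.symm^[j] ∘ s = t at hA hs'
  have h1 : ∀ z, p ^ j • D.pol δ (t z) = D.pol δ z := fun z => by rw [← div_pol_nsmul, hs']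
  have h2 : ∀ z, (D.pol δ (t z)).1 = D.g0 δ j z.1 := fun z => by
    have e : p ^ j • (D.pol δ (t z)).1 = D.polV δ z.1 := congrArg Prod.fst (h1 z)
    rw [g0, ← e, ← Nat.cast_smul_eq_nsmul ℚ, Nat.cast_pow, inv_smul_smul₀ hq]
  have h3 : ∀ z z', (D.pol δ (t (z + z'))).2 - ((D.pol δ (t z)).2 + (D.pol δ (t z')).2) ∈ D.C :=
    fun z z' => by
      have e := (key (t z + t z') (t (z + z')) (by rw [smul_add, hs', hs', hs'])).2
      rwa [D.pol_map_add] at e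
  have h4 : ∀ x : Vt, (D.pol δ (t (x, 0))).2 ∈ D.C := fun x =>
    h.kil _ (congrArg Prod.snd (hs' (x, 0)))
  refine ⟨D.pol δ ∘ t, ⟨D.domi hA fun x => ?_, hA⟩, funext h1, h2, h3, h4⟩
  obtain ⟨x', hx⟩ := h.surj (((p : ℚ) ^ j) • x)
  refine ⟨x', fun z => ⟨?_, ?_⟩⟩
  · rw [Function.comp, Function.comp, h2, h2, g0, g0, Prod.fst_add, map_add, smul_add, hx,
      inv_smul_smul₀ hq]
  · have e := add_mem (h3 z (x', 0)) (h4 x')
    rwa [← sub_sub, sub_add_cancel] at e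

end TD

end M8.CP
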