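import Pool.Agent.Lib.MP_33b3f9_ag.M8.CP.Defs

/-!
Elementary consequences of the theta data.
-/

set_option autoImplicit false
set_option linter.unusedSectionVars false

namespace M8.CP

open Polynomial Filter

namespace TD

variable {k : Type} [Field k] [IsAlgClosed k] {p : ℕ} [Fact p.Prime] [CharP k p]
  {Vt W ι : Type} [AddCommGroup Vt] [Module ℚ Vt] [AddCommGroup W] [Fintype ι]
  (D : TD k p Vt W ι)

/-- the Frobenius -/
def sg : Vt × W ≃+ Vt × W := D.sV.prodCongr D.sW

/-- a polynomial in the Frobenius -/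
noncomputable def pol (a : ℤ[X]) : Vt × W → Vt × W := fun z => (D.polV a z.1, D.polW a z.2)

/-- a coordinate that does not vanish at the origin -/
noncomputable def X0 : Vt × W → k := D.X (D.bpf 0).choose

theorem sg_apply (z : Vt × W) : D.sg z = (D.sV z.1, D.sW z.2) := rfl

theorem X_sg (i : ι) (z : Vt × W) : D.X i (D.sg z) = D.X i z ^ p := D.fr i z

theorem X0_eq : ∃ i, D.X0 = D.X i := ⟨_, rfl⟩

theorem X0_zero : D.X0 0 ≠ 0 := (D.bpf 0).choose_spec

theorem X0_ne : D.X0 ≠ 0 := fun h => D.X0_zero (by rw [h]; rfl)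

theorem X_mem (i : ι) : D.X i ∈ D.G 1 := by
  rw [D.span]; exact Submodule.subset_span ⟨i, rfl⟩

theorem X0_mem : D.X0 ∈ D.G 1 := D.X_mem _

include D in
theorem not_dvd_two_pow (s : ℕ) : ¬ p ∣ 2 ^ s := by
  intro h
  have hp : p.Prime := Fact.out
  exact D.p_odd ((Nat.prime_dvd_prime_iff_eq hp Nat.prime_two).1 (hp.dvd_of_dvd_pow h))

theorem eps_zero_right (x : Vt) : D.eps x 0 = 1 := by
  have h := D.eps_add_right x x 0
  rw [add_zero, D.eps_self, one_mul] at h
  exact h.symm

theorem eps_zero_left (x : Vt) : D.eps 0 x = 1 := by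
  have h := D.eps_add_left 0 x x
  rw [zero_add, D.eps_self, mul_one] at h
  exact h.symm

theorem eps_ne_zero (x y : Vt) : D.eps x y ≠ 0 := by
  have h := D.eps_add_right x y (-y)
  rw [add_neg_cancel, D.eps_zero_right] at h
  exact left_ne_zero_of_mul_eq_one h.symm

theorem eps_swap (x y : Vt) : D.eps x y * D.eps y x = 1 := by
  have h := D.eps_self (x + y)
  rwa [D.eps_add_left, D.eps_add_right, D.eps_add_right, D.eps_self, D.eps_self, one_mul,
    mul_one] at h

theorem eps_nsmul_left (n : ℕ) (x y : Vt) : D.eps (n • x) y = D.eps x y ^ n := by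
  induction n with
  | zero => rw [zero_smul, pow_zero, D.eps_zero_left]
  | succ n ih => rw [succ_nsmul, D.eps_add_left, ih, pow_succ]

theorem eps_nsmul_right (n : ℕ) (x y : Vt) : D.eps x (n • y) = D.eps x y ^ n := by
  induction n with
  | zero => rw [zero_smul, pow_zero, D.eps_zero_right]
  | succ n ih => rw [succ_nsmul, D.eps_add_right, ih, pow_succ]

theorem U_add (n : ℕ) (u : Vt × W) (f g : Vt × W → k) :
    Uop D.eps n u (f + g) = Uop D.eps n u f + Uop D.eps n u g := by
  funext z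
  simp only [Uop, Pi.add_apply, mul_add]

theorem U_smul (n : ℕ) (u : Vt × W) (c : k) (f : Vt × W → k) :
    Uop D.eps n u (c • f) = c • Uop D.eps n u f := by
  funext z
  simp only [Uop, Pi.smul_apply, smul_eq_mul, mul_left_comm]

/-- the Heisenberg operator as a linear map -/
def Ul (n : ℕ) (u : Vt × W) : (Vt × W → k) →ₗ[k] (Vt × W → k) where
  toFun := Uop D.eps n u
  map_add' := D.U_add n u
  map_smul' := D.U_smul n u

theorem Ul_apply (n : ℕ) (u : Vt × W) (f : Vt × W → k) : D.Ul n u f = Uop D.eps n u f := rfl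

theorem U_mul (n m : ℕ) (u : Vt × W) (f g : Vt × W → k) :
    Uop D.eps (n + m) u (f * g) = Uop D.eps n u f * Uop D.eps m u g := by
  funext z
  simp only [Uop, Pi.mul_apply]
  ring

theorem U_pow (n m : ℕ) (u : Vt × W) (f : Vt × W → k) :
    Uop D.eps (n * m) u (f ^ m) = Uop D.eps n u f ^ m := by
  funext z
  simp only [Uop, Pi.pow_apply]
  ring

theorem U_U (n : ℕ) (u v : Vt × W) (f : Vt × W → k) :
    Uop D.eps n u (Uop D.eps n v f) = D.eps v.1 u.1 ^ (4 * n) • Uop D.eps n (u + v) f := by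
  funext z
  simp only [Uop, Pi.smul_apply, smul_eq_mul, Prod.fst_add, D.eps_add_left, D.eps_add_right,
    add_assoc]
  ring

theorem U_zero (n : ℕ) (f : Vt × W → k) : Uop D.eps n 0 f = f := by
  funext z
  simp only [Uop, Prod.fst_zero, D.eps_zero_left, one_pow, one_mul, add_zero]

theorem U_ne_zero (n : ℕ) (u : Vt × W) {f : Vt × W → k} (hf : f ≠ 0) : Uop D.eps n u f ≠ 0 := by
  intro h
  refine hf (funext fun z => ?_)
  have h1 := congrFun h (z - u)
  simp only [Uop, sub_add_cancel, Pi.zero_apply] at h1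
  exact (mul_eq_zero.1 h1).resolve_left (pow_ne_zero _ (D.eps_ne_zero _ _))

theorem pow_mem {n : ℕ} {f : Vt × W → k} (hf : f ∈ D.G n) (m : ℕ) : f ^ m ∈ D.G (n * m) := by
  induction m with
  | zero =>
    rw [pow_zero]
    exact D.one_mem
  | succ m ih =>
    rw [pow_succ, Nat.mul_succ]
    exact D.mul_mem _ _ _ _ ih hf

theorem G_mul_le (n m : ℕ) : D.G n * D.G m ≤ D.G (n + m) := by
  exact Submodule.mul_le.2 fun f hf g hg => D.mul_mem n m f g hf hg

theorem G_pow_le (n m : ℕ) : D.G n ^ m ≤ D.G (n * m) := by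
  induction m with
  | zero =>
    rw [pow_zero]
    exact Submodule.one_le.2 D.one_mem
  | succ m ih =>
    rw [pow_succ, Nat.mul_succ]
    exact (mul_le_mul_left ih _).trans (D.G_mul_le _ _)

theorem nsmul_mem {n : ℕ} {f : Vt × W → k} (hf : f ∈ D.G n) (c : ℕ) :
    (fun z => f (c • z)) ∈ D.G (n * c ^ 2) := by
  simpa only [natCast_zsmul, Int.natAbs_natCast] using D.mul n c f hf

end TD

end M8.CP
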