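import Pool.Agent.Lib.MP_33b3f9_ag.M8.CP.Quad

/-!
Adjointness and the formal computation.
-/

set_option autoImplicit false
set_option linter.unusedSectionVars false

namespace M8.CP

open Polynomial Filter

variable {G : Type} [CommGroup G]

/-- Adjointness. `β` is additive in each variable, `β (X * a) (s y) = β a y ^ p`. For a monomial
`δ = c X ^ i`, `i ≤ m`: `β (X ^ i) (s ^ m y) = β 1 (s ^ (m - i) y) ^ p ^ i`. Write
`δ = ∑ i ∈ range (m + 1), monomial i (coeff i)` (`as_sum_range'`). -/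
theorem adj {Y : Type} [AddCommGroup Y] (p : ℕ) (s : Module.End ℤ Y) (β : ℤ[X] → Y → G)
    (h1 : ∀ a a' y, β (a + a') y = β a y * β a' y) (h2 : ∀ a y y', β a (y + y') = β a y * β a y')
    (hs : ∀ a y, β (X * a) (s y) = β a y ^ p) (δ : ℤ[X]) (m : ℕ) (hm : δ.natDegree ≤ m)
    (a : ℤ[X]) (y : Y) :
    β (δ * a) ((s ^ m) y) = β a (aeval s (recip p m δ) y) := by
  let B : ℤ[X] →+ Y →+ Additive G := AddMonoidHom.mk'
    (fun a => AddMonoidHom.mk' (fun y => Additive.ofMul (β a y)) fun y y' =>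
      congrArg Additive.ofMul (h2 a y y'))
    fun a a' => AddMonoidHom.ext fun y => congrArg Additive.ofMul (h1 a a' y)
  have hB : ∀ a y, B (X * a) (s y) = p • B a y := fun a y => congrArg Additive.ofMul (hs a y)
  have hi : ∀ (i : ℕ) (y : Y), B (X ^ i * a) ((s ^ i) y) = p ^ i • B a y := by
    intro i y
    induction i with
    | zero => simp
    | succ i ih =>
      rw [pow_succ' X, mul_assoc, pow_succ' s, Module.End.mul_apply, hB, ih, smul_smul, pow_succ']
  have key : B (δ * a) ((s ^ m) y) = B a (aeval s (recip p m δ) y) := by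
    conv_lhs => rw [δ.as_sum_range' (m + 1) (Nat.lt_succ_of_le hm)]
    rw [recip, Finset.sum_mul, map_sum, map_sum, LinearMap.sum_apply, map_sum,
      AddMonoidHom.finsetSum_apply]
    refine Finset.sum_congr rfl fun i hi' => ?_
    have him : i ≤ m := Nat.lt_succ_iff.1 (Finset.mem_range.1 hi')
    have e1 : monomial i (δ.coeff i) * a = δ.coeff i • (X ^ i * a) := by
      rw [← C_mul_X_pow_eq_monomial, mul_assoc, smul_eq_C_mul]
    have e2 : (s ^ m) y = (s ^ i) ((s ^ (m - i)) y) := by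
      rw [← Module.End.mul_apply, ← pow_add, Nat.add_sub_cancel' him]
    rw [e1, map_zsmul, AddMonoidHom.smul_apply, e2, hi, aeval_monomial, Module.End.mul_apply,
      Module.algebraMap_end_apply, map_zsmul, mul_smul, ← Nat.cast_pow, natCast_zsmul]
  exact Additive.ofMul.injective key

/-- `β a b = polar q a b ^ 2` is biadditive (`polar_two`, `polar_add_two`, `polar_comm`),
`β (X a) (X b) = β a b ^ p`, `β a i = 1` for `i ∈ I`. Apply `adj` with `Y = ℤ[X]`, `s` =
multiplication by `X` (`LinearMap.mulLeft`; `aeval s r y = r * y`), `a = X ^ m`, `y = δ`: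
`β (δ X^m) (X^m δ) = β (X^m) (recip * δ) = β (X^m) (X^m) ^ d`, and `β (X^m a) (X^m a) =
β a a ^ p ^ m = q a ^ (4 p ^ m)`. -/
theorem formal (p : ℕ) {q : ℤ[X] → G} (hq : IsQuad q) (hX : ∀ a, q (X * a) = q a ^ p)
    (I : Ideal ℤ[X]) (hI : ∀ a, ∀ i ∈ I, q (a + i) = q a) (δ : ℤ[X]) (m d : ℕ)
    (hm : δ.natDegree ≤ m) (h : δ * recip p m δ - C (d : ℤ) * X ^ m ∈ I) :
    q δ ^ (4 * p ^ m) = (q 1 ^ d) ^ (4 * p ^ m) := by
  have hXm : ∀ (j : ℕ) (a : ℤ[X]), q (X ^ j * a) = q a ^ p ^ j := by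
    intro j a
    induction j with
    | zero => simp
    | succ j ih => rw [pow_succ' X, mul_assoc, hX, ih, ← pow_mul, pow_succ]
  let β : ℤ[X] → ℤ[X] → G := fun a b => polar q a (b + b)
  have h2 : ∀ a y y', β a (y + y') = β a y * β a y' := fun a y y' => by
    rw [← hq.polar_two_add]
    exact congrArg (polar q a) (add_add_add_comm y y' y y')
  have hself : ∀ a, β a a = q a ^ 4 := fun a => (hq.polar_two a a).trans (hq.polar_sq_self a)
  have hz : ∀ a, ∀ i ∈ I, β a i = 1 := fun a i hi => by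
    have h0 := hI 0 (i + i) (I.add_mem hi hi)
    rw [zero_add, hq.zero] at h0
    show q (a + (i + i)) / (q a * q (i + i)) = 1
    rw [hI a _ (I.add_mem hi hi), h0, mul_one, div_self']
  have hn : ∀ (a y : ℤ[X]) (j : ℕ), β a (j • y) = β a y ^ j := by
    intro a y j
    induction j with
    | zero => rw [zero_smul, pow_zero, hz a 0 I.zero_mem]
    | succ j ih => rw [succ_nsmul, h2, ih, pow_succ]
  have key := adj p (Algebra.lmul ℤ ℤ[X] X) β (fun a a' y => hq.polar_add_two a a' y) h2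
    (fun a y => by
      show q (X * a + (X * y + X * y)) / (q (X * a) * q (X * y + X * y)) =
        (q (a + (y + y)) / (q a * q (y + y))) ^ p
      rw [← mul_add, ← mul_add, hX, hX, hX, div_pow, mul_pow]) δ m hm (X ^ m) δ
  rw [aeval_algHom_apply, aeval_X_left_apply, ← map_pow] at key
  have e1 : Algebra.lmul ℤ ℤ[X] (X ^ m) δ = X ^ m * δ := rfl
  have e2 : Algebra.lmul ℤ ℤ[X] (recip p m δ) δ =
      d • X ^ m + (δ * recip p m δ - C (d : ℤ) * X ^ m) := by
    show recip p m δ * δ = _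
    rw [nsmul_eq_mul, map_natCast]
    ring
  rw [e1, e2, mul_comm δ (X ^ m), hself, h2, hz _ _ h, mul_one, hn, hself, hXm,
    ← mul_one (X ^ m : ℤ[X]), hXm] at key
  rw [mul_comm 4, pow_mul, key]
  simp only [← pow_mul]
  congr 1
  ring

end M8.CP
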