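import Pool.Agent.Lib.MP_33b3f9_ag.M8.CP.Sim
import Pool.Agent.Lib.MP_33b3f9_ag.M8.CP.Triv

/-!
The class of the quotient.
-/

set_option autoImplicit false
set_option linter.unusedSectionVars false

namespace M8.CP

open Polynomial Filter

namespace TD

variable {k : Type} [Field k] [IsAlgClosed k] {p : ℕ} [Fact p.Prime] [CharP k p]
  {Vt W ι : Type} [AddCommGroup Vt] [Module ℚ Vt] [AddCommGroup W] [Fintype ι]
  (D : TD k p Vt W ι)

variable {D} {δ : ℤ[X]} {m j d : ℕ} {γ : Vt × W → Vt × W}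

/-- `formal` for `qO O ∘ pol` (`isQuad_pol`, `qO_sg`), the ideal of all `b` with `polV b = 0`
(`X_pol_add`, `qO_congr`) and the natural number `p ^ (2 j) * d`; `IsQuad.nsmul` in `AA` for
`p ^ j • γ = pol δ`. -/
theorem IsGam.q_pow (g : D.IsGam δ j γ) (h : D.Hyp δ m j d) {O : ValuationSubring D.KK}
    (hO : D.Over O) :
    D.qO O γ ^ (4 * p ^ (m + 2 * j)) = (D.qO O id ^ d) ^ (4 * p ^ (m + 2 * j)) := by
  have hq := isQuad_pol (D := D) hO
  let I : Ideal ℤ[X] := RingHom.ker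
    (aeval (D.sV.toAddMonoidHom.toIntLinearMap : Module.End ℤ Vt) : ℤ[X] →ₐ[ℤ] Module.End ℤ Vt)
  have hmem : ∀ b : ℤ[X], b ∈ I ↔ D.polV b = 0 := fun b => RingHom.mem_ker
  have hX : ∀ a : ℤ[X], D.qO O (D.pol (Polynomial.X * a)) = D.qO O (D.pol a) ^ p := by
    intro a
    rw [D.pol_mul, D.pol_X]
    exact qO_sg (D.inA_pol a)
  have hI : ∀ a : ℤ[X], ∀ b ∈ I, D.qO O (D.pol (a + b)) = D.qO O (D.pol a) := by
    intro a b hb
    exact qO_congr fun i z => D.X_pol_add ((hmem b).1 hb) a i z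
  have hδ : δ * recip p m δ - Polynomial.C ((p ^ (2 * j) * d : ℕ) : ℤ) * Polynomial.X ^ m ∈ I := by
    rw [hmem]
    have e : ((p ^ (2 * j) * d : ℕ) : ℤ) = (p : ℤ) ^ (2 * j) * d := by push_cast; rfl
    have h2 := h.nrm
    rw [e]
    unfold polV at h2 ⊢
    rw [map_sub, h2, sub_self]
  have h1 := formal p hq hX I hI δ m (p ^ (2 * j) * d) h.deg hδ
  have h2 : D.qO O (D.pol δ) = D.qO O γ ^ ((p ^ j) ^ 2) := by
    have h3 := (isQuad (D := D) hO).nsmul (p ^ j) ⟨γ, g.good.2⟩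
    rw [← g.div]
    exact h3
  simp only [D.pol_one] at h1
  have e1 : 4 * p ^ (m + 2 * j) = (p ^ j) ^ 2 * (4 * p ^ m) := by ring
  have e2 : d * (4 * p ^ (m + 2 * j)) = p ^ (2 * j) * d * (4 * p ^ m) := by ring
  rw [← pow_mul (D.qO O id), e2, e1, pow_mul (D.qO O γ), ← h2, pow_mul (D.qO O id)]
  exact h1

/-- `pu_fu`, `val_fu`; pointwise `X0 (γ (z + l)) * X0 z ^ d = X0 (γ z) * X0 (z + l) ^ d` (`apply_add`,
`X_add_of_mem`, `g0_lam`, `eps_g0`). -/
theorem IsGam.per (g : D.IsGam δ j γ) (h : D.Hyp δ m j d) {l : Vt} (hl : l ∈ D.Lam) :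
    D.pu (trl (l, (0 : W))) (D.fu γ / D.fu id ^ d) = D.fu γ / D.fu id ^ d := by
  have ht := (D.good_trl (l, (0 : W))).1
  rw [_root_.map_div, map_pow, pu_fu g.good.1 ht, pu_fu D.isDom_id ht, div_eq_div_iff_mul_eq_mul]
  apply Units.ext
  rw [Units.val_mul, Units.val_mul, Units.val_pow_eq_pow_val, Units.val_pow_eq_pow_val,
    val_fu (g.good.1.comp ht), val_fu D.isDom_id, val_fu g.good.1, val_fu (D.isDom_id.comp ht),
    ← map_pow, ← map_pow, ← map_mul, ← map_mul]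
  refine congrArg D.gm (funext fun z => ?_)
  obtain ⟨i, hi⟩ := D.X0_eq
  have e1 : D.X i (γ (z + (l, 0))) = (D.eps (D.g0 δ j l) (γ z).1 ^ 4)⁻¹ * D.X i (γ z) := by
    rw [g.apply_add (D.X_mem i)]
    exact D.X_add_of_mem (u := (D.g0 δ j l, 0)) (D.g0_lam δ j hl) D.C.zero_mem i (γ z)
  have e2 : D.X i (z + (l, 0)) = (D.eps l z.1 ^ 4)⁻¹ * D.X i z :=
    D.X_add_of_mem (u := (l, 0)) hl D.C.zero_mem i z
  rw [g.fst, h.eps_g0] at e1
  show D.X0 (γ (z + (l, 0))) * D.X0 z ^ d = D.X0 (γ z) * D.X0 (z + (l, 0)) ^ d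
  rw [hi, e1, e2, mul_pow, inv_pow, ← pow_mul, ← pow_mul, mul_comm 4 d]
  ring

/-- `pq_qO`, `qO_congr` with `apply_add` -/
theorem IsGam.pq_trl (g : D.IsGam δ j γ) (d : ℕ) (x : Vt) :
    D.pq (trl (x, (0 : W))) (D.qO ⊤ γ / D.qO ⊤ id ^ d) = D.qO ⊤ γ / D.qO ⊤ id ^ d *
      (D.bb ⊤ γ (D.g0 δ j x, 0) / D.bb ⊤ id (x, 0) ^ d) := by
  have ht := D.good_trl (x, (0 : W))
  have e1 : D.qO ⊤ (γ ∘ trl (x, (0 : W))) = D.qO ⊤ (γ + fun _ => (D.g0 δ j x, (0 : W))) :=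
    qO_congr fun i z => g.apply_add (D.X_mem i) z x
  have e2 : D.qO ⊤ (id ∘ trl (x, (0 : W))) = D.qO ⊤ (id + fun _ => (x, (0 : W))) := rfl
  rw [_root_.map_div, map_pow, pq_qO g.good.2 ht, pq_qO D.inA_id ht, e1, e2]
  have aux : ∀ {G : Type} [CommGroup G] (A B a b : G),
      A / B ^ d = a / b ^ d * (A / a / (B / b) ^ d) := by
    intro G _ A B a b
    rw [div_pow, div_mul_div_comm, mul_div_cancel, mul_div_cancel]
  exact aux (G := D.QT) _ _ _ _

/-- `triv_of` for `s = fu γ / fu id ^ d`, whose class is `qO ⊤ γ / qO ⊤ id ^ d` (`qO_top`). For `h5` take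
`M` from `lam_tors`; the last factor of `pq_trl` is multiplicative in `x` (`bb_nsmul_right`) and trivial
on `Lam` (`per`). For `h3`, `h4`: `pq_qO`, `qO_congr`, `apply_nsmul`, `apply_neg`, `IsQuad.nsmul`,
`IsQuad.neg` in `AA`. -/
theorem IsGam.class_top (g : D.IsGam δ j γ) (h : D.Hyp δ m j d) : D.qO ⊤ γ = D.qO ⊤ id ^ d := by
  have hs : (QuotientGroup.mk (D.fu γ / D.fu id ^ d) : D.QT) = D.qO ⊤ γ / D.qO ⊤ id ^ d := by
    rw [QuotientGroup.mk_div, QuotientGroup.mk_pow, qO_top g.good, qO_top D.good_id]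
  have hq := isQuad (D := D) D.over_top
  have aux1 : ∀ {G : Type} [CommGroup G] (a b : G) (n : ℕ), (a / b) ^ n = a ^ n / b ^ n :=
    fun a b n => div_pow a b n
  have aux2 : ∀ {G : Type} [CommGroup G] (a b c : G) (n : ℕ), a = a * (b ^ n / (c ^ n) ^ d) →
      (a * (b / c ^ d)) ^ n = a ^ n := by
    intro G _ a b c n h
    have h3 := left_eq_mul.1 h
    rw [← pow_mul, mul_comm n d, pow_mul, ← div_pow] at h3
    rw [mul_pow, h3, mul_one]
  have key : (QuotientGroup.mk (D.fu γ / D.fu id ^ d) : D.QT) = 1 := by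
    refine triv_of h.ord (a := m + 2 * j) ?_ (fun l hl => g.per h hl) ?_ ?_ ?_
    · rw [hs]
      refine (aux1 (G := D.QT) _ _ _).trans ?_
      rw [g.q_pow h D.over_top]
      exact div_self' _
    · have hn : D.Good (nm 4 : Vt × W → Vt × W) := D.good_nm (by norm_num)
      have e1 : D.qO ⊤ (γ ∘ nm 4) = D.qO ⊤ γ ^ 16 := by
        have e : D.qO ⊤ (γ ∘ nm 4) = D.qO ⊤ ((4 : ℕ) • γ) :=
          qO_congr fun i z => g.apply_nsmul (D.X_mem i) 4 z
        rw [e]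
        exact hq.nsmul 4 ⟨γ, g.good.2⟩
      have e2 : D.qO ⊤ (id ∘ (nm 4 : Vt × W → Vt × W)) = D.qO ⊤ id ^ 16 :=
        qO_nm D.over_top 4
      rw [hs, _root_.map_div, map_pow, pq_qO g.good.2 hn, pq_qO D.inA_id hn, e1, e2]
      refine Eq.trans ?_ (aux1 (G := D.QT) _ _ _).symm
      rw [← pow_mul, ← pow_mul, mul_comm 16 d]
    · have hn := D.good_neg
      have e1 : D.qO ⊤ (γ ∘ fun z => -z) = D.qO ⊤ γ := by
        have e : D.qO ⊤ (γ ∘ fun z => -z) = D.qO ⊤ (-γ) :=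
          qO_congr fun i z => g.apply_neg (D.X_mem i) z
        rw [e]
        exact hq.neg ⟨γ, g.good.2⟩
      have e2 : D.qO ⊤ (id ∘ fun z : Vt × W => -z) = D.qO ⊤ id :=
        hq.neg ⟨id, D.inA_id⟩
      rw [hs, _root_.map_div, map_pow, pq_qO g.good.2 hn, pq_qO D.inA_id hn, e1, e2]
    · intro x
      obtain ⟨M, hM, hx⟩ := D.lam_tors x
      refine ⟨M, hM, ?_⟩
      have h1 := g.pq_trl d (M • x)
      have h2 : D.pq (trl (M • x, (0 : W))) (D.qO ⊤ γ / D.qO ⊤ id ^ d) =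
          D.qO ⊤ γ / D.qO ⊤ id ^ d := by
        rw [← hs, pq_mk (D.good_trl _), g.per h hx]
      have h3 := h2.symm.trans h1
      have e1 : (D.g0 δ j (M • x), (0 : W)) = M • (D.g0 δ j x, (0 : W)) := by
        rw [D.g0_nsmul, Prod.smul_mk, smul_zero]
      have e2 : (M • x, (0 : W)) = M • (x, (0 : W)) := by
        rw [Prod.smul_mk, smul_zero]
      rw [e1, e2, bb_nsmul_right D.over_top g.good.2, bb_nsmul_right D.over_top D.inA_id] at h3
      rw [hs, g.pq_trl d x]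
      exact aux2 (G := D.QT) _ _ _ _ h3
  rw [hs] at key
  exact div_eq_one.1 key

theorem IsGam.class_all (g : D.IsGam δ j γ) (h : D.Hyp δ m j d) (O : ValuationSubring D.KK)
    (hO : D.Over O) : D.qO O γ = D.qO O id ^ d := by
  have hp : p ≠ 0 := (Fact.out : p.Prime).ne_zero
  exact qO_of_pow (N := 4 * p ^ (m + 2 * j)) g.good.2 D.inA_id
    (Nat.mul_ne_zero (by norm_num) (pow_ne_zero _ hp)) (g.class_top h) (g.q_pow h hO)

end TD

end M8.CP
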