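import Pool.Agent.Lib.MP_33b3f9_ag.M8.CP.Defs

/-!
Divisible groups with a noetherian topology are irreducible.
-/

set_option autoImplicit false
set_option linter.unusedSectionVars false

namespace M8.CP

open Polynomial Filter

/-- General topology: a divisible group with a noetherian topology in which all translations are
continuous is irreducible. The group acts on the finite set of irreducible components
(`TopologicalSpace.NoetherianSpace.finite_irreducibleComponents`); `u = N! • u'` acts trivially
(`pow_card_eq_one'` in `Equiv.Perm`); the component of `0` contains `0 + u`. -/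
theorem irred_of_div {A : Type} [AddCommGroup A] [TopologicalSpace A]
    [TopologicalSpace.NoetherianSpace A] (hc : ∀ u : A, Continuous fun z => z + u)
    (hd : ∀ c : ℕ, c ≠ 0 → ∀ z : A, ∃ z', c • z' = z) : IrreducibleSpace A := by
  have him : ∀ (u : A) (C : Set A), C ∈ irreducibleComponents A →
      (fun z => z + u) '' C ∈ irreducibleComponents A := by
    intro u C hC
    refine ⟨hC.1.image _ (hc u).continuousOn, fun D hD hle z hz => ?_⟩
    have h1 : C ≤ (fun z => z + -u) '' D := fun y hy => ⟨y + u, hle ⟨y, hy, rfl⟩, by simp⟩
    exact ⟨z + -u, hC.2 (hD.image _ (hc (-u)).continuousOn) h1 ⟨z, hz, rfl⟩, by simp⟩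
  let _ : AddAction A (irreducibleComponents A) :=
    { vadd := fun u C => ⟨(fun z => z + u) '' C.1, him u C.1 C.2⟩
      zero_vadd := fun C => Subtype.ext (by
        show (fun z => z + 0) '' C.1 = C.1
        simp)
      add_vadd := fun u v C => Subtype.ext (by
        show (fun z => z + (u + v)) '' C.1 = (fun z => z + u) '' ((fun z => z + v) '' C.1)
        rw [Set.image_image]
        simp only [add_assoc, add_comm u v]) }
  have : Finite (irreducibleComponents A) :=
    TopologicalSpace.NoetherianSpace.finite_irreducibleComponents
  let C : irreducibleComponents A :=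
    ⟨irreducibleComponent 0, irreducibleComponent_mem_irreducibleComponents 0⟩
  have h0 : (AddAction.stabilizer A C).index ≠ 0 := by
    rw [AddAction.index_stabilizer]
    exact ((Set.ncard_pos (Set.toFinite _)).2 ⟨C, AddAction.mem_orbit_self C⟩).ne'
  have h1 : irreducibleComponent (0 : A) = Set.univ := by
    refine Set.eq_univ_of_forall fun u => ?_
    obtain ⟨v, rfl⟩ := hd _ h0 u
    have h2 := congrArg Subtype.val
      (AddAction.mem_stabilizer_iff.1 ((AddAction.stabilizer A C).nsmul_index_mem v))
    have h3 : (fun z => z + (AddAction.stabilizer A C).index • v) '' irreducibleComponent (0 : A) =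
      irreducibleComponent 0 := h2
    rw [← h3]
    exact ⟨0, mem_irreducibleComponent, zero_add _⟩
  have h4 : IsIrreducible (Set.univ : Set A) := h1 ▸ isIrreducible_irreducibleComponent
  exact { isPreirreducible_univ := h4.2, toNonempty := ⟨0⟩ }

end M8.CP
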