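import Pool.Agent.Lib.MP_33b3f9_ag.M8.CP.HF1

/-!
Homogeneous finiteness from valuations.
-/

set_option autoImplicit false
set_option linter.unusedSectionVars false

namespace M8.CP

open Polynomial Filter

variable {k K : Type} [Field k] [Field K] [Algebra k K]

theorem hf_iter {S Q : Submodule k K} {N : ℕ} (h : S ^ (N + 1) ≤ Q * S ^ N) (n : ℕ) :
    S ^ (N + n) ≤ S ^ N * Q ^ n := by
  induction n with
  | zero => rw [add_zero, pow_zero, mul_one]
  | succ n ih =>
    calc S ^ (N + (n + 1)) = S ^ (N + n) * S := by rw [← add_assoc, pow_succ]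
      _ ≤ S ^ N * Q ^ n * S := mul_le_mul' ih le_rfl
      _ = S ^ (N + 1) * Q ^ n := by rw [pow_succ, mul_right_comm]
      _ ≤ Q * S ^ N * Q ^ n := mul_le_mul' h le_rfl
      _ = S ^ N * Q ^ (n + 1) := by rw [pow_succ', mul_comm Q, mul_assoc]

theorem hf_binom (T : Submodule k K) (x : K) (m : ℕ) :
    (Submodule.span k {x} ⊔ T) ^ (m + 1) ≤
      Submodule.span k {x} ^ (m + 1) ⊔ T * (Submodule.span k {x} ⊔ T) ^ m := by
  generalize Submodule.span k {x} = X
  induction m with
  | zero => rw [zero_add, pow_one, pow_one, pow_zero, mul_one]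
  | succ m ih =>
    rw [pow_succ (X ⊔ T) (m + 1)]
    refine (mul_le_mul' ih le_rfl).trans ?_
    rw [Submodule.sup_mul, mul_assoc, ← pow_succ, Submodule.mul_sup, ← pow_succ, sup_assoc]
    refine sup_le_sup_left (sup_le ?_ le_rfl) _
    rw [mul_comm]
    exact mul_le_mul' le_rfl (pow_le_pow_left' le_sup_left _)

theorem hf_fin (Q : Submodule k K) (s : Finset K)
    (h : ∀ x ∈ s, ∃ n : ℕ, x ^ (n + 1) ∈ Q * (Submodule.span k {x} ⊔ Q) ^ n) :
    ∃ N : ℕ, (Submodule.span k (s : Set K) ⊔ Q) ^ (N + 1) ≤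
      Q * (Submodule.span k (s : Set K) ⊔ Q) ^ N := by
  classical
  induction s using Finset.induction_on with
  | empty =>
    exact ⟨0, by rw [Finset.coe_empty, Submodule.span_empty, bot_sup_eq, zero_add, pow_one,
      pow_zero, mul_one]⟩
  | insert x s _ ih =>
    obtain ⟨N, hN⟩ := ih fun y hy => h y (Finset.mem_insert_of_mem hy)
    obtain ⟨n, hn⟩ := h x (Finset.mem_insert_self x s)
    rw [Finset.coe_insert, Submodule.span_insert, sup_assoc]
    have hQ : Q ≤ Submodule.span k (s : Set K) ⊔ Q := le_sup_right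
    generalize Submodule.span k (s : Set K) ⊔ Q = T at hN hQ
    have h1 : (Submodule.span k {x} ⊔ T) ^ (n + 1) ≤ T * (Submodule.span k {x} ⊔ T) ^ n := by
      refine (hf_binom T x n).trans (sup_le ?_ le_rfl)
      rw [Submodule.span_pow, Set.singleton_pow, Submodule.span_singleton_le_iff_mem]
      exact mul_le_mul' hQ (pow_le_pow_left' (sup_le_sup_left hQ _) n) hn
    refine ⟨n + N, ?_⟩
    have hT : T ≤ Submodule.span k {x} ⊔ T := le_sup_right
    generalize Submodule.span k {x} ⊔ T = S at h1 hT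
    calc S ^ (n + N + 1) ≤ S ^ n * T ^ (N + 1) := hf_iter h1 (N + 1)
      _ ≤ S ^ n * (Q * S ^ N) :=
        mul_le_mul' le_rfl (hN.trans (mul_le_mul' le_rfl (pow_le_pow_left' hT N)))
      _ = Q * S ^ (n + N) := by rw [pow_add, mul_left_comm]

/-- Induction on the number of generators of `P`, or: `(P ⊔ Q) ^ (N + 1) ≤ Q * (P ⊔ Q) ^ N` for
`N = ∑ n x` over a finite generating set of `P` (a product of `N + 1` generators of `P ⊔ Q` contains
a factor in `Q` or a power `x ^ (n x + 1)`); then induction on `n`. -/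
theorem hf (P Q : Submodule k K) [FiniteDimensional k P]
    (h : ∀ O : ValuationSubring K, (∀ e : k, algebraMap k K e ∈ O) →
      ∀ x ∈ P, ∃ g ∈ Q, ∃ c ∈ O, x = c * g) :
    ∃ N : ℕ, ∀ n : ℕ, (P ⊔ Q) ^ (N + n) ≤ (P ⊔ Q) ^ N * Q ^ n := by
  obtain ⟨s, rfl⟩ := (Submodule.fg_iff_finiteDimensional P).2 inferInstance
  obtain ⟨N, hN⟩ := hf_fin Q s fun x hx =>
    hf_one Q x fun O hO => h O hO x (Submodule.subset_span hx)
  exact ⟨N, hf_iter hN⟩

/-- An eigenvalue of multiplication by `c` on `V` (`Module.End.exists_eigenvalue`). -/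
theorem eig [IsAlgClosed k] (V : Submodule k K) [FiniteDimensional k V] (hV : V ≠ ⊥) (c : K)
    (h : ∀ v ∈ V, c * v ∈ V) : ∃ e : k, c = algebraMap k K e := by
  have := Submodule.nontrivial_iff_ne_bot.2 hV
  obtain ⟨e, he⟩ := Module.End.exists_eigenvalue ((LinearMap.mulLeft k c).restrict h)
  obtain ⟨v, hv⟩ := he.exists_hasEigenvector
  have h1 : c * v = e • (v : K) := congrArg Subtype.val hv.apply_eq_smul
  rw [Algebra.smul_def] at h1
  exact ⟨e, mul_right_cancel₀ (fun h0 => hv.2 (Subtype.ext h0)) h1⟩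

end M8.CP
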