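import Pool.Agent.Lib.MP_33b3f9_ag.M8.CP.Fld
import Pool.Agent.Lib.MP_33b3f9_ag.M8.CP.HF

/-!
The translations act faithfully modulo `Lam × C`.
-/

set_option autoImplicit false
set_option linter.unusedSectionVars false

namespace M8.CP

open Polynomial Filter

namespace TD

variable {k : Type} [Field k] [IsAlgClosed k] {p : ℕ} [Fact p.Prime] [CharP k p]
  {Vt W ι : Type} [AddCommGroup Vt] [Module ℚ Vt] [AddCommGroup W] [Fintype ι]
  (D : TD k p Vt W ι)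

theorem kp_trl_add (u v : Vt × W) :
    D.kp (trl (u + v)) = (D.kp (trl u)).comp (D.kp (trl v)) := by
  have h : (trl (u + v) : Vt × W → Vt × W) = trl v ∘ trl u := by
    funext z
    simp only [trl, Function.comp_apply, add_assoc]
  rw [h, kp_comp (D.good_trl v) (D.good_trl u)]

theorem kp_trl_zero : D.kp (trl (0 : Vt × W)) = AlgHom.id k _ := by
  have h : (trl (0 : Vt × W) : Vt × W → Vt × W) = id := by
    funext z
    simp only [trl, add_zero, id]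
  rw [h, D.kp_id]

/-- `per` and the definition of `C` -/
theorem U_of_mem {u : Vt × W} (h1 : u.1 ∈ D.Lam) (h2 : u.2 ∈ D.C) {n : ℕ} {f : Vt × W → k}
    (hf : f ∈ D.G n) : Uop D.eps n u f = f := by
  funext z
  have h3 := congrFun (D.per n u.1 h1 f hf) z
  have h4 : z + u = z + (u.1, 0) + (0, u.2) := by
    ext
    · simp
    · simp
  have h5 : f (z + (u.1, 0) + (0, u.2)) = f (z + (u.1, 0)) := h2 n f hf _
  simp only [Uop] at h3 ⊢
  rw [h4, h5, h3]

theorem X_add_of_mem {u : Vt × W} (h1 : u.1 ∈ D.Lam) (h2 : u.2 ∈ D.C) (i : ι) (z : Vt × W) :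
    D.X i (z + u) = (D.eps u.1 z.1 ^ 4)⁻¹ * D.X i z := by
  have h := congrFun (D.U_of_mem h1 h2 (D.X_mem i)) z
  simp only [Uop, mul_one] at h
  have h0 : D.eps u.1 z.1 ^ 4 ≠ 0 := pow_ne_zero _ (D.eps_ne_zero _ _)
  rw [← h, ← mul_assoc, inv_mul_cancel₀ h0, one_mul]

/-- `Ka_fix` for `a = id`, `Ka_id` -/
theorem kp_trl_of_mem {u : Vt × W} (h1 : u.1 ∈ D.Lam) (h2 : u.2 ∈ D.C) :
    D.kp (trl u) = AlgHom.id k _ := by
  refine AlgHom.ext fun c => ?_
  have hc : c ∈ D.Ka id := by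
    rw [D.Ka_id]
    exact IntermediateField.mem_top
  exact Ka_fix (D.good_trl u) (fun z => (D.eps u.1 z.1 ^ 4)⁻¹)
    (fun z => inv_ne_zero (pow_ne_zero _ (D.eps_ne_zero _ _)))
    (fun i z => D.X_add_of_mem h1 h2 i z) hc

/-- `c = U (X0 ^ M) / X0 ^ M`; for `f = x * X0 ^ M`, `x ∈ GK M`, pull back along `trl u` and multiply by
the germ of `eps u.1 z.1 ^ (4 M)`: `U f = x * c * X0 ^ M`. So `c * GK M ≤ GK M`; `eig`. -/
theorem scalar_of_fix {u : Vt × W} (h : D.kp (trl u) = AlgHom.id k _) {M : ℕ}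
    (h1 : (4 * M) • u.1 ∈ D.Lam) (h2 : (4 * M) • u.2 = 0) :
    ∃ e : k, ∀ f ∈ D.G M, Uop D.eps M u f = e • f := by
  have hg : D.X0 ^ M ∈ D.G M := by
    have := D.pow_mem D.X0_mem M
    rwa [one_mul] at this
  have hgood := D.good_trl u
  have hU : ∀ f : Vt × W → k, D.gm (Uop D.eps M u f) =
      D.gm (fun z => D.eps u.1 z.1 ^ (4 * M)) * D.pull (trl u) (D.gm f) := by
    intro f
    rw [pull_gm hgood.1, ← map_mul]
    rfl
  obtain ⟨c, -, hc⟩ := D.exists_GK (D.tr M u h1 h2 _ hg)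
  have key : ∀ (x : D.KK) (f : Vt × W → k), D.val x * D.gm D.X0 ^ M = D.gm f →
      D.val (c * x) * D.gm D.X0 ^ M = D.gm (Uop D.eps M u f) := by
    intro x f hx
    have h3 : D.pull (trl u) (D.val x) = D.val x := by
      rw [← val_kp hgood, h]
      rfl
    have h4 : D.gm (Uop D.eps M u f) = D.val x * D.gm (Uop D.eps M u (D.X0 ^ M)) := by
      rw [hU f, hU (D.X0 ^ M), ← hx, map_mul, h3, ← map_pow D.gm]
      ring
    rw [h4, ← hc, map_mul]
    ring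
  have := D.grow.fin M
  obtain ⟨e, he⟩ := eig (D.GK M) (D.GK_ne_bot M) c (by
    intro x hx
    obtain ⟨f, hf, hxf⟩ := D.mem_GK.1 hx
    exact D.mem_GK.2 ⟨_, D.tr M u h1 h2 f hf, key x f hxf⟩)
  refine ⟨e, fun f hf => ?_⟩
  obtain ⟨x, -, hx⟩ := D.exists_GK hf
  refine D.gm_inj_G (D.tr M u h1 h2 f hf) ((D.G M).smul_mem e hf) ?_
  rw [← key x f hx, he, map_mul, AlgHom.commutes, mul_assoc, hx, map_smul, Algebra.smul_def]

/-- For `l ∈ Lam` put `x = (4 M)⁻¹ • l`. `U u` and `U (x, 0)` commute on `X0 ^ M`; `U_U` twice,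
`eps_swap`: `eps u.1 x ^ (8 M) = 1`; `perf`. -/
theorem lam_of_scalar {u : Vt × W} {M : ℕ} (hM : 1 ≤ M) {e : k}
    (h : ∀ f ∈ D.G M, Uop D.eps M u f = e • f) : u.1 ∈ D.Lam := by
  have hg : D.X0 ^ M ∈ D.G M := by
    have := D.pow_mem D.X0_mem M
    rwa [one_mul] at this
  have hg0 : D.X0 ^ M ≠ 0 := fun h0 => pow_ne_zero M D.X0_zero (congrFun h0 0)
  refine D.perf _ fun l hl => ?_
  obtain ⟨x, hx⟩ : ∃ x : Vt, (4 * M) • x = l := by
    refine ⟨((4 * M : ℕ) : ℚ)⁻¹ • l, ?_⟩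
    have h0 : ((4 * M : ℕ) : ℚ) ≠ 0 := Nat.cast_ne_zero.2 (by omega)
    rw [← Nat.cast_smul_eq_nsmul ℚ, smul_smul, mul_inv_cancel₀ h0, one_smul]
  have hx1 : Uop D.eps M (x, (0 : W)) (D.X0 ^ M) ∈ D.G M :=
    D.tr M (x, 0) (by rw [← hx] at hl; exact hl) (smul_zero _) _ hg
  have h3 := h _ hx1
  have h4 : Uop D.eps M (x, (0 : W)) (Uop D.eps M u (D.X0 ^ M)) =
      e • Uop D.eps M (x, (0 : W)) (D.X0 ^ M) := by
    rw [h _ hg, D.U_smul]
  rw [← h4, D.U_U, D.U_U, add_comm (x, (0 : W)) u] at h3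
  have h5 : D.eps x u.1 ^ (4 * M) = D.eps u.1 x ^ (4 * M) :=
    smul_left_injective k (D.U_ne_zero M (u + (x, 0)) hg0) h3
  rw [← D.eps_nsmul_left, ← D.eps_nsmul_right, hx] at h5
  have h6 := D.eps_swap u.1 l
  rw [h5] at h6
  rw [sq, h6]

/-- Level `M = p ^ j` with `M • y = 0`. Iterate: `f (z + n • (0, y)) = e ^ n * f z`, so `e ^ p ^ j = 1`,
`e = 1`; `f = X i ^ p ^ j`; `mem_C_iff`. -/
theorem mem_C_of_fix {y : W} (h : D.kp (trl ((0 : Vt), y)) = AlgHom.id k _) : y ∈ D.C := by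
  obtain ⟨j, hj⟩ := D.W_tors y
  have hmem : ∀ i, D.X i ^ p ^ j ∈ D.G (p ^ j) := by
    intro i
    have := D.pow_mem (D.X_mem i) (p ^ j)
    rwa [one_mul] at this
  obtain ⟨e, he⟩ := D.scalar_of_fix h (M := p ^ j) (by simp) (by
    show (4 * p ^ j) • y = 0
    rw [mul_smul, hj, smul_zero])
  have h1 : ∀ f ∈ D.G (p ^ j), ∀ z : Vt × W, f (z + (0, y)) = e * f z := by
    intro f hf z
    have := congrFun (he f hf) z
    simpa only [Uop, D.eps_zero_left, one_pow, one_mul, Pi.smul_apply, smul_eq_mul] using this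
  have h2 : ∀ f ∈ D.G (p ^ j), ∀ n : ℕ, f (0, n • y) = e ^ n * f 0 := by
    intro f hf n
    induction n with
    | zero => simp [← Prod.zero_eq_mk]
    | succ n ih =>
      have h3 : (((0 : Vt), (n + 1) • y) : Vt × W) = (0, n • y) + (0, y) := by
        simp [add_smul]
      rw [h3, h1 f hf, ih, pow_succ]
      ring
  have he1 : e = 1 := by
    obtain ⟨i, hi⟩ := D.bpf 0
    have h3 := h2 _ (hmem i) (p ^ j)
    rw [hj] at h3
    have h4 : (D.X i ^ p ^ j) 0 ≠ 0 := pow_ne_zero _ hi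
    have h5 : e ^ p ^ j = 1 := by
      have h6 : (1 : k) * (D.X i ^ p ^ j) 0 = e ^ p ^ j * (D.X i ^ p ^ j) 0 := by
        rw [one_mul]
        exact h3
      exact (mul_right_cancel₀ h4 h6).symm
    have h7 : (e - 1) ^ p ^ j = 0 := by
      rw [sub_pow_char_pow, h5, one_pow, sub_self]
    exact sub_eq_zero.1 (pow_eq_zero_iff (pow_ne_zero j (Fact.out : p.Prime).ne_zero) |>.1 h7)
  refine D.mem_C_iff.2 fun i z => ?_
  have h3 := h1 _ (hmem i) z
  rw [he1, one_mul] at h3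
  have h4 : (D.X i (z + (0, y)) - D.X i z) ^ p ^ j = 0 := by
    rw [sub_pow_char_pow]
    exact sub_eq_zero.2 h3
  exact sub_eq_zero.1 (pow_eq_zero_iff (pow_ne_zero j (Fact.out : p.Prime).ne_zero) |>.1 h4)

theorem faith {u : Vt × W} (h : D.kp (trl u) = AlgHom.id k _) : u.1 ∈ D.Lam ∧ u.2 ∈ D.C := by
  obtain ⟨M, hM, h1, h2⟩ := D.exists_level u
  obtain ⟨e, he⟩ := D.scalar_of_fix h (M := M)
    (by rw [mul_smul]; exact D.Lam.nsmul_mem h1 4) (by rw [mul_smul, h2, smul_zero])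
  have h3 := D.lam_of_scalar hM he
  refine ⟨h3, D.mem_C_of_fix ?_⟩
  have h4 : (((0 : Vt), u.2) : Vt × W) = u + (-u.1, 0) := by
    ext
    · simp
    · simp
  rw [h4, D.kp_trl_add, h, D.kp_trl_of_mem (u := (-u.1, 0)) (D.Lam.neg_mem h3) D.C.zero_mem]
  rfl

/-- translation as an automorphism of the function field -/
noncomputable def tau (u : Vt × W) : D.KK ≃ₐ[k] D.KK :=
  AlgEquiv.ofAlgHom (D.kp (trl u)) (D.kp (trl (-u)))
    (by rw [← D.kp_trl_add, add_neg_cancel, D.kp_trl_zero])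
    (by rw [← D.kp_trl_add, neg_add_cancel, D.kp_trl_zero])

theorem tau_apply (u : Vt × W) (c : D.KK) : D.tau u c = D.kp (trl u) c := rfl

theorem tau_add (u v : Vt × W) : D.tau (u + v) = D.tau u * D.tau v := by
  refine AlgEquiv.ext fun c => ?_
  rw [AlgEquiv.mul_apply, D.tau_apply, D.tau_apply, D.tau_apply, D.kp_trl_add]
  rfl

theorem tau_zero : D.tau 0 = 1 := by
  refine AlgEquiv.ext fun c => ?_
  rw [D.tau_apply, D.kp_trl_zero]
  rfl

theorem tau_neg (u : Vt × W) : D.tau (-u) = (D.tau u)⁻¹ := by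
  rw [eq_inv_iff_mul_eq_one, ← D.tau_add, neg_add_cancel, D.tau_zero]

theorem tau_nsmul (n : ℕ) (u : Vt × W) : D.tau (n • u) = D.tau u ^ n := by
  induction n with
  | zero => rw [zero_smul, pow_zero, D.tau_zero]
  | succ n ih => rw [add_smul, one_smul, D.tau_add, ih, pow_succ]

theorem tau_eq_iff {u v : Vt × W} :
    D.tau u = D.tau v ↔ u.1 - v.1 ∈ D.Lam ∧ u.2 - v.2 ∈ D.C := by
  have h0 : D.tau u = D.tau v ↔ D.tau (u - v) = 1 := by
    rw [sub_eq_add_neg, D.tau_add, D.tau_neg, mul_inv_eq_one]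
  rw [h0]
  constructor
  · intro h
    refine D.faith (u := u - v) (AlgHom.ext fun c => ?_)
    rw [← D.tau_apply, h]
    rfl
  · rintro ⟨h1, h2⟩
    refine AlgEquiv.ext fun c => ?_
    rw [D.tau_apply, D.kp_trl_of_mem (u := u - v) h1 h2]
    rfl

/-- `nm c ∘ trl u = trl (c • u) ∘ nm c`, `kp_comp` -/
theorem kp_trl_nm {c : ℕ} (hc : c ≠ 0) {u : Vt × W} (h1 : c • u.1 ∈ D.Lam) (h2 : c • u.2 ∈ D.C)
    (x : D.KK) : D.kp (trl u) (D.kp (nm c : Vt × W → Vt × W) x) =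
      D.kp (nm c : Vt × W → Vt × W) x := by
  have h3 : (nm c ∘ trl u : Vt × W → Vt × W) = trl (c • u) ∘ nm c := by
    funext z
    simp only [trl, nm, Function.comp_apply, smul_add]
  have h4 := kp_comp (D.good_nm hc) (D.good_trl u)
  rw [h3, kp_comp (D.good_trl (c • u)) (D.good_nm hc), D.kp_trl_of_mem (u := c • u) h1 h2] at h4
  exact (DFunLike.congr_fun h4 x).symm

end TD

end M8.CP
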