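import Pool.Agent.Lib.MP_33b3f9_ag.M8.CP.Hts1
import Pool.Agent.Lib.MP_6adaea_nt.V.FF2

/-!
A system of valuations with product formula on a finitely generated field.
-/

set_option autoImplicit false
set_option linter.unusedSectionVars false

namespace M8.CP

open Polynomial Filter

open Pool.Agent.Lib.MP_6adaea_nt

variable {k K : Type} [Field k] [Field K] [Algebra k K]

/-- integer valued valuations, trivial on `k`, with the product formula, cutting out `k` -/
structure HtSys (k K : Type) [Field k] [Field K] [Algebra k K] where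
  Pl : Type
  ord : Pl → K → ℤ
  ord_mul : ∀ w {f g : K}, f ≠ 0 → g ≠ 0 → ord w (f * g) = ord w f + ord w g
  ord_add : ∀ w {f g : K}, f ≠ 0 → g ≠ 0 → f + g ≠ 0 → min (ord w f) (ord w g) ≤ ord w (f + g)
  ord_const : ∀ w (c : k), c ≠ 0 → ord w (algebraMap k K c) = 0
  fin : ∀ f : K, f ≠ 0 → {w | ord w f ≠ 0}.Finite
  prod : ∀ f : K, f ≠ 0 → ∑ᶠ w, ord w f = 0
  pole : ∀ f : K, f ≠ 0 → (∀ w, 0 ≤ ord w f) → ∃ e : k, f = algebraMap k K e

/-- `B` is finite (it is independent in the matroid `AlgebraicIndependent.matroid k K`, which has the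
finite spanning set `range x`). If `B` is empty `f` is algebraic over `k`. Otherwise
`Matroid.Indep.closure_sInter_eq_biInter_closure_of_forall_subset` with the sets `B \ {i}` and
`AlgebraicIndependent.matroid_closure_eq`. -/
theorem alg_of_forall {ι : Type} [Fintype ι] (x : ι → K)
    (hx : IntermediateField.adjoin k (Set.range x) = ⊤) (B : Set K)
    (hB : IsTranscendenceBasis k ((↑) : B → K)) :
    B.Finite ∧ ∀ f : K, (∀ i ∈ B, IsAlgebraic (Algebra.adjoin k (B \ {i})) f) → IsAlgebraic k f := by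
  have hal : Algebra.IsAlgebraic (Algebra.adjoin k (Set.range x)) K := by
    refine ⟨fun f => IntermediateField.isAlgebraic_adjoin_iff.1 ?_⟩
    exact isAlgebraic_algebraMap
      (⟨f, by rw [hx]; trivial⟩ : IntermediateField.adjoin k (Set.range x))
  refine ⟨?_, fun f hf => ?_⟩
  · rw [← Cardinal.lt_aleph0_iff_set_finite, hB.cardinalMk_eq_trdeg]
    exact (Algebra.IsAlgebraic.trdeg_le_cardinalMk k (Set.range x)).trans_lt
      (Cardinal.lt_aleph0_iff_set_finite.2 (Set.finite_range x))
  · have hb : (AlgebraicIndependent.matroid k K).IsBase B := hB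
    have e := hb.indep.closure_sInter_eq_biInter_closure_of_forall_subset
      (Js := insert B ((fun i => B \ {i}) '' B)) (Set.insert_nonempty _ _) (by
        rintro J (rfl | ⟨i, _, rfl⟩)
        · exact le_rfl
        · exact Set.sdiff_subset)
    have e0 : ⋂₀ insert B ((fun i => B \ {i}) '' B) = ∅ := by
      refine Set.eq_empty_of_forall_notMem fun i hi => ?_
      have hi' := hi B (Set.mem_insert _ _)
      exact (hi _ (Set.mem_insert_of_mem _ ⟨i, hi', rfl⟩)).2 rfl
    have hm : f ∈ (AlgebraicIndependent.matroid k K).closure ∅ := by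
      rw [← e0, e, Set.mem_iInter₂]
      rintro J (rfl | ⟨i, hi, rfl⟩)
      · rw [hb.closure_eq]; trivial
      · rw [AlgebraicIndependent.matroid_closure_eq]
        exact hf i hi
    rw [AlgebraicIndependent.matroid_closure_eq, SetLike.mem_coe,
      Subalgebra.mem_algebraicClosure, Algebra.adjoin_empty] at hm
    exact Subalgebra.isAlgebraic_of_isAlgebraic_bot hm

/-- `Pl` = the disjoint union over `i ∈ B` (`exists_isTranscendenceBasis`). -/
theorem exists_htSys [IsAlgClosed k] (p : ℕ) [Fact p.Prime] [CharP k p] {ι : Type} [Fintype ι]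
    (x : ι → K) (hx : IntermediateField.adjoin k (Set.range x) = ⊤) : Nonempty (HtSys k K) := by
  obtain ⟨B, hB⟩ := exists_isTranscendenceBasis k K
  obtain ⟨hfin, halg⟩ := alg_of_forall x hx B hB
  have := hfin.fintype
  choose Pl ord h1 h2 h3 h4 h5 h6 using fun i : B => exists_dir p x hx B hB i.1 i.2
  have hs : ∀ (f : K) (hf : f ≠ 0), {w : Σ i, Pl i | ord w.1 w.2 f ≠ 0} ⊆
      (Finset.univ.sigma fun i => (h4 i f hf).toFinset : Finset (Σ i, Pl i)) :=
    fun f hf w hw => by simpa using hw
  refine ⟨⟨Σ i, Pl i, fun w => ord w.1 w.2, fun w => h1 w.1 w.2, fun w => h2 w.1 w.2,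
    fun w => h3 w.1 w.2, fun f hf => (Finset.finite_toSet _).subset (hs f hf), fun f hf => ?_,
    fun f hf h => ?_⟩⟩
  · rw [finsum_eq_sum_of_support_subset _ (hs f hf), Finset.sum_sigma]
    refine Finset.sum_eq_zero fun i _ => ?_
    refine Eq.trans ?_ (h5 i f hf)
    exact (finsum_eq_sum_of_support_subset (fun w => ord i w f)
      fun w hw => by simpa using hw).symm
  · have ha := halg f fun i hi => h6 ⟨i, hi⟩ f hf fun w => h ⟨⟨i, hi⟩, w⟩
    obtain ⟨e, he⟩ := minpoly.mem_range_of_degree_eq_one k f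
      (IsAlgClosed.degree_eq_one_of_irreducible k (minpoly.irreducible ha.isIntegral))
    exact ⟨e, he.symm⟩

theorem hts_ord_one (H : HtSys k K) (w : H.Pl) : H.ord w 1 = 0 := by
  simpa using H.ord_const w 1 one_ne_zero

theorem hts_ord_neg (H : HtSys k K) (w : H.Pl) {f : K} (hf : f ≠ 0) :
    H.ord w (-f) = H.ord w f := by
  have h : H.ord w (-1) = 0 := by simpa using H.ord_const w (-1) (neg_ne_zero.2 one_ne_zero)
  rw [← neg_one_mul, H.ord_mul w (neg_ne_zero.2 one_ne_zero) hf, h, zero_add]

theorem hts_ord_inv (H : HtSys k K) (w : H.Pl) {f : K} (hf : f ≠ 0) :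
    H.ord w f⁻¹ = - H.ord w f := by
  have h := H.ord_mul w hf (inv_ne_zero hf)
  rw [mul_inv_cancel₀ hf, hts_ord_one] at h
  omega

/-- the valuation ring of a place -/
def HtSys.ring (H : HtSys k K) (w : H.Pl) : ValuationSubring K where
  carrier := {f | f = 0 ∨ 0 ≤ H.ord w f}
  mul_mem' := by
    intro f g hf hg
    by_cases hf0 : f = 0
    · exact Or.inl (by rw [hf0, zero_mul])
    by_cases hg0 : g = 0
    · exact Or.inl (by rw [hg0, mul_zero])
    refine Or.inr ?_
    rw [H.ord_mul w hf0 hg0]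
    exact add_nonneg (hf.resolve_left hf0) (hg.resolve_left hg0)
  one_mem' := Or.inr (hts_ord_one H w).ge
  add_mem' := by
    intro f g hf hg
    by_cases hf0 : f = 0
    · rwa [hf0, zero_add]
    by_cases hg0 : g = 0
    · rwa [hg0, add_zero]
    by_cases h : f + g = 0
    · exact Or.inl h
    exact Or.inr ((le_min (hf.resolve_left hf0) (hg.resolve_left hg0)).trans
      (H.ord_add w hf0 hg0 h))
  zero_mem' := Or.inl rfl
  neg_mem' := by
    intro f hf
    by_cases hf0 : f = 0
    · exact Or.inl (neg_eq_zero.2 hf0)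
    exact Or.inr ((hf.resolve_left hf0).trans (hts_ord_neg H w hf0).ge)
  mem_or_inv_mem' := by
    intro f
    by_cases hf0 : f = 0
    · exact Or.inl (Or.inl hf0)
    rcases le_total 0 (H.ord w f) with h | h
    · exact Or.inl (Or.inr h)
    · exact Or.inr (Or.inr ((neg_nonneg.2 h).trans (hts_ord_inv H w hf0).ge))

theorem HtSys.mem_ring (H : HtSys k K) (w : H.Pl) (f : K) :
    f ∈ H.ring w ↔ f = 0 ∨ 0 ≤ H.ord w f := Iff.rfl

theorem HtSys.const_mem (H : HtSys k K) (w : H.Pl) (e : k) : algebraMap k K e ∈ H.ring w := by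
  by_cases he : e = 0
  · exact Or.inl (by rw [he, map_zero])
  · exact Or.inr (H.ord_const w e he).ge

theorem HtSys.ord_inv (H : HtSys k K) (w : H.Pl) {f : K} (hf : f ≠ 0) :
    H.ord w f⁻¹ = - H.ord w f := by
  exact hts_ord_inv H w hf

end M8.CP
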