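import Pool.Agent.Lib.MP_33b3f9_ag.M8.CP.AA2

/-!
The field of definition of a point; descent.
-/

set_option autoImplicit false
set_option linter.unusedSectionVars false

namespace M8.CP

open Polynomial Filter

namespace TD

variable {k : Type} [Field k] [IsAlgClosed k] {p : ℕ} [Fact p.Prime] [CharP k p]
  {Vt W ι : Type} [AddCommGroup Vt] [Module ℚ Vt] [AddCommGroup W] [Fintype ι]
  (D : TD k p Vt W ι)

/-- the subfield generated by the ratios of the coordinates -/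
noncomputable def Ka (a : Vt × W → Vt × W) : IntermediateField k D.KK :=
  IntermediateField.adjoin k {c | ∃ i j, IsUnit (D.gm (D.X j ∘ a)) ∧
    D.gm (D.X i ∘ a) = D.val c * D.gm (D.X j ∘ a)}

variable {D}

theorem Ka_div {s : D.FF} (hs : IsUnit s) {c x y : D.KK} (hy : IsUnit (D.val y * s))
    (h : D.val x * s = D.val c * (D.val y * s)) : c = x / y := by
  have h0 : y ≠ 0 := by
    rintro rfl
    rw [map_zero, zero_mul] at hy
    exact not_isUnit_zero hy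
  rw [← mul_assoc, ← map_mul] at h
  rw [D.val_inj (hs.mul_right_cancel h), mul_div_cancel_right₀ _ h0]

theorem Ka_le {a : Vt × W → Vt × W} {A : IntermediateField k D.KK} {s : D.FF} (hs : IsUnit s)
    (h : ∀ i, ∃ c ∈ A, D.gm (D.X i ∘ a) = D.val c * s) : D.Ka a ≤ A := by
  refine IntermediateField.adjoin_le_iff.2 ?_
  rintro c ⟨i, j, hj, hc⟩
  obtain ⟨x, hx, h1⟩ := h i
  obtain ⟨y, hy, h2⟩ := h j
  rw [h1, h2] at hc
  rw [h2] at hj
  rw [SetLike.mem_coe, Ka_div hs hj hc]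
  exact div_mem hx hy

theorem InA.frame {a : Vt × W → Vt × W} (h : D.InA a) :
    ∃ s, IsUnit s ∧ ∀ i, ∃ c ∈ D.Ka a, D.gm (D.X i ∘ a) = D.val c * s := by
  obtain ⟨j, hj⟩ := h.exists_unit
  refine ⟨_, hj, fun i => ?_⟩
  obtain ⟨c, hc⟩ := h.ratio hj i
  exact ⟨c, IntermediateField.subset_adjoin _ _ ⟨i, j, hj, hc⟩, hc⟩

/-- `law_gm` for the subalgebra of `Ka a ⊔ Ka b`; frame `s ^ 2 s' ^ 2 / (X j ∘ (a - b))`. -/
theorem Ka_add {a b : Vt × W → Vt × W} (ha : D.InA a) (hb : D.InA b) :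
    D.Ka (a + b) ≤ D.Ka a ⊔ D.Ka b := by
  obtain ⟨s, hs, h1⟩ := ha.frame
  obtain ⟨s', hs', h2⟩ := hb.frame
  obtain ⟨j, u, hu⟩ := (ha.add_sub hb).2.exists_unit
  refine Ka_le (((hs.pow 2).mul (hs'.pow 2)).mul u⁻¹.isUnit) fun i => ?_
  obtain ⟨e, he, h3⟩ := law_gm (D.Ka a ⊔ D.Ka b).toSubalgebra
    (fun i => (h1 i).imp fun c hc => ⟨(le_sup_left : D.Ka a ≤ D.Ka a ⊔ D.Ka b) hc.1, hc.2⟩)
    (fun i => (h2 i).imp fun c hc => ⟨(le_sup_right : D.Ka b ≤ D.Ka a ⊔ D.Ka b) hc.1, hc.2⟩) i j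
  exact ⟨e, he, by rw [← mul_assoc, ← h3, ← hu, Units.mul_inv_cancel_right]⟩

theorem Ka_comp {a b : Vt × W → Vt × W} (ha : D.InA a) (hb : D.Good b) :
    D.Ka (a ∘ b) ≤ (D.kp b).fieldRange := by
  obtain ⟨s, hs, h⟩ := ha
  refine Ka_le (hs.map (D.pull b)) fun i => ?_
  obtain ⟨c, hc⟩ := h i
  refine ⟨D.kp b c, ⟨c, rfl⟩, ?_⟩
  rw [val_kp hb, ← map_mul, ← hc, pull_gm hb.1]
  rfl

/-- `≤` by `Ka_comp` with `id`; `≥`: `c = f / g`, `line (Ka a)`. -/
theorem Ka_good {a : Vt × W → Vt × W} (ha : D.Good a) : D.Ka a = (D.kp a).fieldRange := by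
  refine le_antisymm (Ka_comp D.inA_id ha) ?_
  rintro _ ⟨c, rfl⟩
  obtain ⟨n, f, hf, g, hg, h0, h1⟩ := D.KK_frac c
  obtain ⟨s, hs, h⟩ := ha.2.frame
  obtain ⟨x, hx, h2⟩ := line (D.Ka a) hs h hf
  obtain ⟨y, hy, h3⟩ := line (D.Ka a) hs h hg
  have h4 := isDom_iff.1 ha.1 n g hg h0
  have h5 := congrArg (D.pull a) h1
  rw [map_mul, pull_gm ha.1, pull_gm ha.1, ← val_kp ha, h2, h3] at h5
  rw [h3] at h4
  change D.kp a c ∈ D.Ka a
  rw [Ka_div (hs.pow n) h4 h5.symm]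
  exact div_mem hx hy

theorem Ka_congr {a b : Vt × W → Vt × W} (h : ∀ i z, D.X i (b z) = D.X i (a z)) :
    D.Ka b = D.Ka a := by
  have h1 : ∀ i, D.X i ∘ b = D.X i ∘ a := fun i => funext (h i)
  simp only [Ka, h1]

/-- The generators of `Ka a` are fixed (`val_kp`, cancel units); the fixed elements of an algebra
map form an intermediate field. -/
theorem Ka_fix {a v : Vt × W → Vt × W} (hv : D.Good v) (e : Vt × W → k) (he : ∀ z, e z ≠ 0)
    (h : ∀ i z, D.X i (a (v z)) = e z * D.X i (a z)) {c : D.KK} (hc : c ∈ D.Ka a) :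
    D.kp v c = c := by
  induction hc using IntermediateField.adjoin_induction with
  | mem c hc =>
    obtain ⟨i, j, hj, hc⟩ := hc
    have h1 : ∀ i, D.pull v (D.gm (D.X i ∘ a)) = D.gm e * D.gm (D.X i ∘ a) := fun i => by
      rw [pull_gm hv.1, ← map_mul]
      exact congrArg D.gm (funext (h i))
    have h2 := congrArg (D.pull v) hc
    rw [map_mul, h1, h1, ← val_kp hv, hc, mul_left_comm] at h2
    exact (D.val_inj (((D.isUnit_gm.2 (Eventually.of_forall he)).mul hj).mul_right_cancel h2)).symm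
  | algebraMap x => exact (D.kp v).commutes x
  | add x y _ _ hx hy => rw [map_add, hx, hy]
  | inv x _ hx => rw [map_inv₀, hx]
  | mul x y _ _ hx hy => rw [map_mul, hx, hy]

/-- Take `j` with `X j ∘ a` a unit; `X j ∘ a'` is a unit by `Quo`; the ratio `c i = kp v c'`;
`pull_inj`. -/
theorem desc {a a' v : Vt × W → Vt × W} (hv : D.Good v) (hq : D.Quo v) (ha : D.InA a)
    (hK : D.Ka a ≤ (D.kp v).fieldRange) (h : ∀ i z, D.X i (a' (v z)) = D.X i (a z)) :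
    D.InA a' := by
  obtain ⟨j, hj⟩ := ha.exists_unit
  have h1 : ∀ i, D.pull v (D.gm (D.X i ∘ a')) = D.gm (D.X i ∘ a) := fun i => by
    rw [pull_gm hv.1]
    exact congrArg D.gm (funext (h i))
  refine ⟨D.gm (D.X j ∘ a'), D.isUnit_gm.2 (hq _ ?_), fun i => ?_⟩
  · exact (D.isUnit_gm.1 hj).mono fun z hz (h0 : D.X j (a' (v z)) = 0) => hz ((h j z).symm.trans h0)
  · obtain ⟨c, hc⟩ := ha.ratio hj i
    obtain ⟨c', h2⟩ := hK (IntermediateField.subset_adjoin _ _ ⟨i, j, hj, hc⟩)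
    replace h2 : D.kp v c' = c := h2
    exact ⟨c', pull_inj hv.1 hq (by rw [map_mul, h1, h1, ← val_kp hv, h2, hc])⟩

/-- `pull_inj` -/
theorem mem_of_pull {v : Vt × W → Vt × W} (hv : D.Good v) (hq : D.Quo v) {s : D.FF} {c : D.KK}
    (hc : c ∈ (D.kp v).fieldRange) (h : D.pull v s = D.val c) : ∃ c' : D.KK, s = D.val c' := by
  obtain ⟨c', h2⟩ := hc
  replace h2 : D.kp v c' = c := h2
  exact ⟨c', pull_inj hv.1 hq (by rw [← val_kp hv, h2, h])⟩

end TD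

end M8.CP
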