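import Pool.Agent.Lib.MP_33b3f9_ag.M8.CP.Defs
import Pool.Agent.Lib.MP_6adaea_nt.V.FF2

/-!
Places in one direction.
-/

set_option autoImplicit false
set_option linter.unusedSectionVars false

namespace M8.CP

open Polynomial Filter

open Pool.Agent.Lib.MP_6adaea_nt

variable {k K : Type} [Field k] [Field K] [Algebra k K]

theorem hts1_ff {k' E : Type} [Field k'] [Field E] [Algebra k' E] (S : Set E) (hS : S.Finite)
    (t : E) (ht : Transcendental k' t) (htS : t ∈ IntermediateField.adjoin k' S)
    (halg : ∀ M : IntermediateField k' E, t ∈ M → ∀ s ∈ S, IsAlgebraic M s) :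
    IsFF k' (IntermediateField.adjoin k' S) := by
  refine ⟨⟨t, htS⟩, fun h => ht (IntermediateField.isAlgebraic_iff.1 h), ?_⟩
  set M := IntermediateField.adjoin k' {(⟨t, htS⟩ : IntermediateField.adjoin k' S)} with hM
  have h1 : Algebra.EssFiniteType k' (IntermediateField.adjoin k' S) :=
    IntermediateField.essFiniteType_iff.2 (IntermediateField.fg_adjoin_of_finite hS)
  have h2 : Algebra.EssFiniteType M (IntermediateField.adjoin k' S) :=
    Algebra.EssFiniteType.of_comp k' _ _
  have h3 : t ∈ IntermediateField.lift M :=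
    (IntermediateField.mem_lift (⟨t, htS⟩ : IntermediateField.adjoin k' S)).2
      (IntermediateField.mem_adjoin_simple_self _ _)
  have h4 : IntermediateField.adjoin k' S ≤
      (algebraicClosure (IntermediateField.lift M) E).restrictScalars k' :=
    IntermediateField.adjoin_le_iff.2 fun s hs => mem_algebraicClosure_iff.2 (halg _ h3 s hs)
  have h5 : Algebra.IsAlgebraic M (IntermediateField.adjoin k' S) := ⟨fun y =>
    IsAlgebraic.of_ringHom_of_comp_eq (IntermediateField.liftAlgEquiv M).toRingEquiv.toRingHom
      (algebraMap (IntermediateField.adjoin k' S) E) (mem_algebraicClosure_iff.1 (h4 y.2))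
      (IntermediateField.liftAlgEquiv M).surjective Subtype.val_injective rfl⟩
  exact Algebra.finite_of_essFiniteType_of_isAlgebraic

/-- One direction `i`: `B` a transcendence basis of `K / k` (finite), `Kb = AlgebraicClosure K`,
`k' = algebraicClosure (adjoin k (B \ {i})) Kb` (algebraically closed), `L = adjoin k' (image of K)`.
`L` is finite over `k'(i)` (finitely many algebraic generators), `i` is transcendental over `k'`:
`IsFF k' L`. Restrict the places of `L / k'` to `K`; `IsFF.fin`, `IsFF.prod`, `IsFF.pole`. -/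
theorem exists_dir [IsAlgClosed k] (p : ℕ) [Fact p.Prime] [CharP k p] {ι : Type} [Fintype ι]
    (x : ι → K) (hx : IntermediateField.adjoin k (Set.range x) = ⊤) (B : Set K)
    (hB : IsTranscendenceBasis k ((↑) : B → K)) (i : K) (hi : i ∈ B) :
    ∃ (Pl : Type) (ord : Pl → K → ℤ),
      (∀ w {f g : K}, f ≠ 0 → g ≠ 0 → ord w (f * g) = ord w f + ord w g) ∧
      (∀ w {f g : K}, f ≠ 0 → g ≠ 0 → f + g ≠ 0 → min (ord w f) (ord w g) ≤ ord w (f + g)) ∧
      (∀ w (c : k), c ≠ 0 → ord w (algebraMap k K c) = 0) ∧
      (∀ f : K, f ≠ 0 → {w | ord w f ≠ 0}.Finite) ∧ (∀ f : K, f ≠ 0 → ∑ᶠ w, ord w f = 0) ∧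
      ∀ f : K, f ≠ 0 → (∀ w, 0 ≤ ord w f) → IsAlgebraic (Algebra.adjoin k (B \ {i})) f := by
  classical
  let F := IntermediateField.adjoin k (B \ {i})
  let E := AlgebraicClosure K
  let k' := algebraicClosure F E
  have hk' : IsAlgClosed k' := (algebraicClosure.isAlgClosure F E).isAlgClosed
  have hp : CharP k' p := charP_of_injective_algebraMap (algebraMap k k').injective p
  have htw : IsScalarTower k k' E := IsScalarTower.of_algebraMap_eq fun _ => rfl
  let L := IntermediateField.adjoin k' (Set.range fun j => algebraMap K E (x j))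
  have hL : ∀ f : K, algebraMap K E f ∈ L := fun f => by
    have hf : f ∈ IntermediateField.adjoin k (Set.range x) := hx ▸ IntermediateField.mem_top
    have h1 : IntermediateField.adjoin k (Set.range x) ≤
        (L.restrictScalars k).comap (IsScalarTower.toAlgHom k K E) :=
      IntermediateField.adjoin_le_iff.2 (by
        rintro _ ⟨j, rfl⟩
        exact IntermediateField.subset_adjoin k' _ (Set.mem_range_self j))
    exact h1 hf
  have ht : Transcendental k' (algebraMap K E i) := by
    have h1 := hB.1.transcendental_adjoin (s := {b : B | b ≠ ⟨i, hi⟩}) (i := ⟨i, hi⟩) (by simp)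
    have h2 : ((↑) : B → K) '' {b : B | b ≠ ⟨i, hi⟩} = B \ {i} := by
      ext y
      constructor
      · rintro ⟨b, hb, rfl⟩
        exact ⟨b.2, fun h => hb (Subtype.ext h)⟩
      · rintro ⟨h1, h2⟩
        exact ⟨⟨y, h1⟩, fun h => h2 (congrArg Subtype.val h), rfl⟩
    rw [h2] at h1
    have h3 : Transcendental F i := IntermediateField.transcendental_adjoin_iff.2 h1
    have h4 : Transcendental F (algebraMap K E i) :=
      (transcendental_algebraMap_iff (algebraMap K E).injective).2 h3
    exact h4.extendScalars k'
  have hff : IsFF k' L := by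
    refine hts1_ff _ (Set.finite_range _) _ ht (hL i) fun M hM => ?_
    rintro _ ⟨j, rfl⟩
    have h1 : Algebra.adjoin k (Set.range ((↑) : B → K)) ≤
        (M.restrictScalars k).toSubalgebra.comap (IsScalarTower.toAlgHom k K E) :=
      Algebra.adjoin_le (by
        rintro _ ⟨b, rfl⟩
        by_cases hb : (b : K) = i
        · change algebraMap K E b ∈ M
          rwa [hb]
        · exact M.algebraMap_mem
            (algebraMap F k' ⟨b, IntermediateField.subset_adjoin _ _ ⟨b.2, hb⟩⟩))
    exact IsAlgebraic.ringHom_of_comp_eq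
      (((algebraMap K E).comp (Algebra.adjoin k (Set.range ((↑) : B → K))).val.toRingHom).codRestrict
        M fun y => h1 y.2) (algebraMap K E) (hB.isAlgebraic.isAlgebraic (x j))
      (fun a b h => Subtype.ext ((algebraMap K E).injective (congrArg Subtype.val h))) rfl
  let φ : K →+* L := (algebraMap K E).codRestrict L hL
  refine ⟨Place k' L, fun w f => w.ord (φ f), fun w f g hf hg => ?_, fun w f g hf hg hfg => ?_,
    fun w c _ => w.ord_const (algebraMap k k' c), fun f _ => IsFF.fin p (φ f), fun f _ => ?_,
    fun f _ h => ?_⟩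
  · simp only [map_mul]
    exact w.ord_mul ((map_ne_zero φ).2 hf) ((map_ne_zero φ).2 hg)
  · simp only [map_add]
    exact w.ord_add ((map_ne_zero φ).2 hf) ((map_ne_zero φ).2 hg)
      (by rw [← map_add]; exact (map_ne_zero φ).2 hfg)
  · rw [finsum_eq_sum_of_support_subset _ (s := (IsFF.fin (k := k') p (φ f)).toFinset)
      fun w hw => by simpa using hw]
    exact IsFF.prod p _ _ fun w hw => by simpa using hw
  · obtain ⟨c, hc⟩ := IsFF.pole (k := k') p (x := φ f) fun w => Or.inr (h w)
    have h1 : algebraMap K E f = (c : E) := congrArg Subtype.val hc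
    have h2 : IsAlgebraic F (algebraMap K E f) := h1 ▸ mem_algebraicClosure_iff.1 c.2
    exact IntermediateField.isAlgebraic_adjoin_iff.1
      ((isAlgebraic_algebraMap_iff (algebraMap K E).injective).1 h2)

end M8.CP
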