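import Pool.Agent.Lib.MP_33b3f9_ag.M8.CP.PhiInj
import Pool.Agent.Lib.MP_33b3f9_ag.M8.CP.Sep
import Pool.Agent.Lib.MP_33b3f9_ag.M8.CP.Deg
import Pool.Agent.Lib.MP_33b3f9_ag.M8.CP.Ded

/-!
Independent functions attached to the étale torsion.
-/

set_option autoImplicit false
set_option linter.unusedSectionVars false

namespace M8.CP

open Polynomial Filter

namespace TD

variable {k : Type} [Field k] [IsAlgClosed k] {p : ℕ} [Fact p.Prime] [CharP k p]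
  {Vt W ι : Type} [AddCommGroup Vt] [Module ℚ Vt] [AddCommGroup W] [Fintype ι]
  (D : TD k p Vt W ι)

/-- the translations by points of order dividing `p ^ j` -/
noncomputable def H (j : ℕ) : Subgroup (D.KK ≃ₐ[k] D.KK) where
  carrier := {g | ∃ y : W, p ^ j • y = 0 ∧ g = D.tau (0, y)}
  one_mem' := ⟨0, smul_zero _, D.tau_zero.symm⟩
  mul_mem' := by
    rintro _ _ ⟨y, hy, rfl⟩ ⟨y', hy', rfl⟩
    refine ⟨y + y', by rw [smul_add, hy, hy', add_zero], ?_⟩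
    rw [← D.tau_add, Prod.mk_add_mk, add_zero]
  inv_mem' := by
    rintro _ ⟨y, hy, rfl⟩
    refine ⟨-y, by rw [smul_neg, hy, neg_zero], ?_⟩
    rw [← D.tau_neg, Prod.neg_mk, neg_zero]

theorem mem_H {j : ℕ} {g : D.KK ≃ₐ[k] D.KK} :
    g ∈ D.H j ↔ ∃ y : W, p ^ j • y = 0 ∧ g = D.tau (0, y) := Iff.rfl

include D in
/-- `W_card`, `Nat.finite_of_card_ne_zero` -/
theorem finite_Wp (j : ℕ) : Finite {y : W // p ^ j • y = 0} := by
  refine Nat.finite_of_card_ne_zero ?_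
  rw [D.W_card]
  exact pow_ne_zero _ (Fact.out : p.Prime).ne_zero

instance finite_H (j : ℕ) : Finite (D.H j) := by
  have := D.finite_Wp j
  refine Finite.of_surjective (fun y : {y : W // p ^ j • y = 0} =>
    (⟨D.tau (0, y.1), y.1, y.2, rfl⟩ : D.H j)) ?_
  rintro ⟨_, y, hy, rfl⟩
  exact ⟨⟨y, hy⟩, rfl⟩

/-- translations by the points killed by `p ^ j` -/
noncomputable def ind_hom (j : ℕ) :
    Multiplicative (nsmulAddMonoidHom (p ^ j) : W →+ W).ker →* (D.KK ≃ₐ[k] D.KK) where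
  toFun y := D.tau (0, y.toAdd.1)
  map_one' := D.tau_zero
  map_mul' y y' := by
    rw [← D.tau_add, Prod.mk_add_mk, add_zero]
    rfl

theorem ind_range (j : ℕ) : (D.ind_hom j).range = D.H j := by
  ext g
  constructor
  · rintro ⟨y, rfl⟩
    exact ⟨y.toAdd.1, y.toAdd.2, rfl⟩
  · rintro ⟨y, hy, rfl⟩
    exact ⟨Multiplicative.ofAdd ⟨y, hy⟩, rfl⟩

theorem ind_ker (j : ℕ) (y : Multiplicative (nsmulAddMonoidHom (p ^ j) : W →+ W).ker) :
    y ∈ (D.ind_hom j).ker ↔ y.toAdd.1 ∈ D.C := by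
  rw [MonoidHom.mem_ker, ← D.tau_zero]
  refine D.tau_eq_iff.trans ?_
  simp

/-- First isomorphism theorem for `y ↦ tau (0, y)` on the subgroup killed by `p ^ j`
(`AddMonoidHom` to `Additive`, or count fibres); `tau_eq_iff`, `W_card`. -/
theorem card_mul (j : ℕ) :
    Nat.card (D.H j) * Nat.card {y : W // p ^ j • y = 0 ∧ y ∈ D.C} = p ^ (16 * j) := by
  have h1 := (D.ind_hom j).ker.index_mul_card
  rw [Subgroup.index_ker, D.ind_range] at h1
  have h2 : Nat.card (D.ind_hom j).ker = Nat.card {y : W // p ^ j • y = 0 ∧ y ∈ D.C} :=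
    Nat.card_congr
      { toFun := fun y => ⟨y.1.toAdd.1, y.1.toAdd.2, (D.ind_ker j y.1).1 y.2⟩
        invFun := fun y => ⟨Multiplicative.ofAdd ⟨y.1, y.2.1⟩, (D.ind_ker j _).2 y.2.2⟩
        left_inv := fun _ => rfl
        right_inv := fun _ => rfl }
  rw [← h2, h1, ← D.W_card j]
  rfl

/-- a point inducing `g` -/
noncomputable def yy (j : ℕ) (g : D.H j) : W := (D.mem_H.1 g.2).choose

theorem yy_tors (j : ℕ) (g : D.H j) : p ^ j • D.yy j g = 0 := (D.mem_H.1 g.2).choose_spec.1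

theorem yy_tau (j : ℕ) (g : D.H j) : (g : D.KK ≃ₐ[k] D.KK) = D.tau (0, D.yy j g) :=
  (D.mem_H.1 g.2).choose_spec.2

/-- `Phi_pow`, `mk_phi`, `mk_eq_one` -/
theorem exists_fy (j : ℕ) (g : D.H j) :
    ∃ c : D.KK, D.val c = (D.phi (D.yy j g) : D.FF) ^ p ^ j := by
  have h1 := D.Phi_pow (D.yy_tors j g)
  rw [← D.mk_phi, ← QuotientGroup.mk_pow] at h1
  obtain ⟨c, hc⟩ := mk_eq_one.1 h1
  exact ⟨c, by rw [← hc, Units.val_pow_eq_pow_val]⟩

/-- the `p ^ j`-th power of `phi` -/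
noncomputable def fy (j : ℕ) (g : D.H j) : D.KK := (D.exists_fy j g).choose

theorem val_fy (j : ℕ) (g : D.H j) : D.val (D.fy j g) = (D.phi (D.yy j g) : D.FF) ^ p ^ j :=
  (D.exists_fy j g).choose_spec

theorem fy_ne_zero (j : ℕ) (g : D.H j) : D.fy j g ≠ 0 := by
  intro h
  have h1 := D.val_fy j g
  rw [h, map_zero] at h1
  exact ((D.phi (D.yy j g)).isUnit.pow _).ne_zero h1.symm

/-- `pq_mk`, `mk_eq_top`: `pull b s = val c * s`; raise to the power `p ^ j`; `mem_Fr`. -/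
theorem kp_line {b : Vt × W → Vt × W} (hb : D.Good b) {s : D.FFˣ} {j : ℕ} {u : D.KK}
    (hu : D.val u = (s : D.FF) ^ p ^ j)
    (h : D.pq b (QuotientGroup.mk s) = QuotientGroup.mk s) : ∃ c ∈ D.Fr j, D.kp b u = c * u := by
  rw [pq_mk hb] at h
  obtain ⟨c, hc⟩ := mk_eq_top.1 h
  refine ⟨c ^ p ^ j, D.mem_Fr.2 ⟨c, rfl⟩, D.val_inj ?_⟩
  rw [val_kp hb, map_mul, hu, map_pow, map_pow, ← val_pu, hc, mul_pow]

/-- `FF_pow_inj` -/
theorem mk_eq_of_line {s s' : D.FFˣ} {j : ℕ} {u u' c : D.KK} (hu : D.val u = (s : D.FF) ^ p ^ j)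
    (hu' : D.val u' = (s' : D.FF) ^ p ^ j) (hc : c ∈ D.Fr j) (h : u = c * u') :
    (QuotientGroup.mk s : D.QT) = QuotientGroup.mk s' := by
  obtain ⟨c', rfl⟩ := D.mem_Fr.1 hc
  refine mk_eq_top.2 ⟨c', D.FF_pow_inj j ?_⟩
  rw [← hu, h, map_mul, map_pow, hu', mul_pow]

/-- `Phi_sub`, `Phi_inj`, `tau_eq_iff` -/
theorem fy_inj (j : ℕ) (g g' : D.H j) (h : ∃ c ∈ D.Fr j, D.fy j g = c * D.fy j g') : g = g' := by
  obtain ⟨c, hc, h⟩ := h
  have h1 := D.mk_eq_of_line (D.val_fy j g) (D.val_fy j g') hc h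
  rw [D.mk_phi, D.mk_phi] at h1
  have h2 : D.yy j g - D.yy j g' ∈ D.C := D.Phi_inj (by rw [D.Phi_sub, h1, div_self'])
  refine Subtype.ext ?_
  rw [D.yy_tau, D.yy_tau]
  exact D.tau_eq_iff.2 ⟨by simp, h2⟩

/-- `ded` with `t x = kp (trl (x, 0))`; `const`, `pq_trl_Phi` -/
theorem indep (j : ℕ) : LinearIndependent (D.Fr j) (D.fy j) := by
  refine ded (D.Fr j) (fun x : Vt => D.kp (trl (x, (0 : W)))) (fun x c hc => D.map_mem_Fr _ hc)
    (fun u hu => ?_) (D.fy j) (D.fy_ne_zero j) (fun x g => ?_) (D.fy_inj j)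
  · obtain ⟨e, rfl⟩ := D.const hu
    exact (D.Fr j).algebraMap_mem e
  · refine D.kp_line (D.good_trl _) (D.val_fy j g) ?_
    rw [D.mk_phi, D.pq_trl_Phi]

theorem card_H_le (j : ℕ) : Nat.card (D.H j) ≤ Module.finrank (D.Fr j) D.KK := by
  have := (D.deg_Fr j).1
  have := Fintype.ofFinite (D.H j)
  rw [Nat.card_eq_fintype_card]
  exact (D.indep j).fintype_card_le_finrank

end TD

end M8.CP
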