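import Pool.Agent.Lib.MP_33b3f9_ag.M8.CP.Ind
import Pool.Agent.Lib.MP_33b3f9_ag.M8.CP.Art

/-!
Invariants of the étale torsion.
-/

set_option autoImplicit false
set_option linter.unusedSectionVars false

namespace M8.CP

open Polynomial Filter

namespace TD

variable {k : Type} [Field k] [IsAlgClosed k] {p : ℕ} [Fact p.Prime] [CharP k p]
  {Vt W ι : Type} [AddCommGroup Vt] [Module ℚ Vt] [AddCommGroup W] [Fintype ι]
  (D : TD k p Vt W ι)

/-- `kp_trl_nm` -/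
theorem H_fix (j : ℕ) : ∀ g ∈ D.H j, ∀ c ∈ D.Fm (p ^ j), g c = c := by
  rintro g ⟨y, hy, rfl⟩ c hc
  obtain ⟨x, rfl⟩ := AlgHom.mem_fieldRange.1 hc
  have hp : p ^ j ≠ 0 := pow_ne_zero _ (Fact.out : p.Prime).ne_zero
  rw [tau_apply]
  refine D.kp_trl_nm hp ?_ ?_ x
  · show p ^ j • (0 : Vt) ∈ D.Lam
    rw [smul_zero]; exact D.Lam.zero_mem
  · show p ^ j • y ∈ D.C
    rw [hy]; exact D.C.zero_mem

/-- `c = f / g` (`KK_frac`). Pull back along `trl (0, y)`, multiply over the `p ^ (16 j)` points `y` and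
raise to the power `p ^ (2 j)`; `norm` for `f` and `g`: `c ^ p ^ (18 j) = kp (nm (p ^ j)) (f1 / g1)`,
`g1 ≠ 0` because the germ of `g1 ∘ nm` is a unit. -/
theorem norm_pow (j : ℕ) (c : D.KK) (h : ∀ g ∈ D.H j, g c = c) :
    ∃ a : ℕ, c ^ p ^ a ∈ D.Fm (p ^ j) := by
  classical
  have hp : p ^ j ≠ 0 := pow_ne_zero _ (Fact.out : p.Prime).ne_zero
  obtain ⟨n, f, hf, g, hg, hg0, hc⟩ := D.KK_frac c
  have hfin : {y : W | p ^ j • y = 0}.Finite := Set.finite_coe_iff.1 (D.finite_Wp j)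
  set S : Finset W := hfin.toFinset with hSdef
  have hS : ∀ y, y ∈ S ↔ p ^ j • y = 0 := fun y => by simp [hSdef]
  have hcard : S.card = p ^ (16 * j) := by
    rw [← D.W_card j]
    exact (Nat.subtype_card S hS).symm
  obtain ⟨f1, hf1, hf1e⟩ := D.norm j n S hS f hf
  obtain ⟨g1, hg1, hg1e⟩ := D.norm j n S hS g hg
  have key : ∀ (u u1 : Vt × W → k),
      (∀ z : Vt × W, (∏ y ∈ S, u (z + (0, y))) ^ p ^ (2 * j) = u1 (p ^ j • z)) →
      D.gm (u1 ∘ nm (p ^ j)) =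
        (∏ y ∈ S, D.pull (trl ((0 : Vt), y)) (D.gm u)) ^ p ^ (2 * j) := by
    intro u u1 hu
    have e1 : (u1 ∘ nm (p ^ j)) = (∏ y ∈ S, u ∘ trl ((0 : Vt), y)) ^ p ^ (2 * j) := by
      funext z
      rw [Pi.pow_apply, Finset.prod_apply]
      exact (hu z).symm
    rw [e1, map_pow, map_prod]
    congr 1
    exact Finset.prod_congr rfl fun y _ => (pull_gm (D.good_trl _).1 u).symm
  have hy : ∀ y ∈ S, D.val c * D.pull (trl ((0 : Vt), y)) (D.gm g) =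
      D.pull (trl ((0 : Vt), y)) (D.gm f) := by
    intro y hy
    have h1 : D.kp (trl ((0 : Vt), y)) c = c := h _ ⟨y, (hS y).1 hy, rfl⟩
    have h2 := val_kp (D.good_trl ((0 : Vt), y)) c
    rw [h1] at h2
    rw [← hc, map_mul, ← h2]
  have hmain : D.val (c ^ p ^ (16 * j + 2 * j)) * D.gm (g1 ∘ nm (p ^ j)) =
      D.gm (f1 ∘ nm (p ^ j)) := by
    rw [key f f1 hf1e, key g g1 hg1e, ← Finset.prod_congr rfl hy, Finset.prod_mul_distrib,
      Finset.prod_const, hcard, mul_pow, map_pow, pow_add, pow_mul]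
  have hunit : IsUnit (D.gm (g1 ∘ nm (p ^ j))) := by
    rw [key g g1 hg1e]
    refine IsUnit.pow _ (IsUnit.prod_iff.2 fun y _ => ?_)
    exact (D.isUnit_gm_G hg hg0).map _
  have hg10 : g1 ≠ 0 := by
    rintro rfl
    have e0 : ((0 : Vt × W → k) ∘ (nm (p ^ j) : Vt × W → Vt × W)) = 0 := rfl
    rw [e0, map_zero] at hunit
    exact not_isUnit_zero hunit
  obtain ⟨e, he⟩ := D.exists_ratio hf1 hg1 hg10
  have hgood := D.good_nm hp
  have he' := congrArg (D.pull (nm (p ^ j))) he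
  rw [map_mul, pull_gm hgood.1, pull_gm hgood.1, ← val_kp hgood, ← hmain] at he'
  refine ⟨16 * j + 2 * j, AlgHom.mem_fieldRange.2 ⟨e, D.val_inj ?_⟩⟩
  exact hunit.mul_right_cancel he'

/-- The map `g ↦ g ^ p ^ j` sends `H (r + j)` to `H r` (`tau_nsmul`). Two elements `tau (0, y)`,
`tau (0, y')` of one fibre have `p ^ j • (y - y') ∈ C`, so the fibre is a translate of a set of maps
fixing `Fm (p ^ j)` (`kp_trl_nm`), of card at most `card (H j)` (`card_le_card`, `norm_pow`);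
`Finset.card_le_mul_card_image_of_maps_to`. -/
theorem card_H_add (r j : ℕ) : Nat.card (D.H (r + j)) ≤ Nat.card (D.H r) * Nat.card (D.H j) := by
  classical
  have hp : p ^ j ≠ 0 := pow_ne_zero _ (Fact.out : p.Prime).ne_zero
  have hmem : ∀ g : D.H (r + j), (g : D.KK ≃ₐ[k] D.KK) ^ p ^ j ∈ D.H r := by
    rintro ⟨g, y, hy, rfl⟩
    refine ⟨p ^ j • y, ?_, ?_⟩
    · rw [smul_smul, ← pow_add, hy]
    · show D.tau (0, y) ^ p ^ j = _
      rw [← D.tau_nsmul, Prod.smul_mk, smul_zero]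
  let φ : D.H (r + j) → D.H r := fun g => ⟨_, hmem g⟩
  let _ : Fintype (D.H (r + j)) := Fintype.ofFinite _
  let _ : Fintype (D.H r) := Fintype.ofFinite _
  rw [Nat.card_eq_fintype_card (α := D.H (r + j)), Nat.card_eq_fintype_card (α := D.H r), mul_comm,
    ← Finset.card_univ, ← Finset.card_univ]
  refine Finset.card_le_mul_card_image_of_maps_to (f := φ) (fun a _ => Finset.mem_univ _) _ ?_
  intro b _
  rcases (Finset.univ.filter fun a => φ a = b).eq_empty_or_nonempty with h0 | ⟨g0, hg0⟩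
  · rw [h0]; exact Nat.zero_le _
  let ψ : D.H (r + j) → (D.KK →ₐ[k] D.KK) := fun g =>
    ((g : D.KK ≃ₐ[k] D.KK) * (g0 : D.KK ≃ₐ[k] D.KK)⁻¹ : D.KK ≃ₐ[k] D.KK)
  have hψ : Function.Injective ψ := by
    intro a a' haa
    have h1 : (a : D.KK ≃ₐ[k] D.KK) * (g0 : D.KK ≃ₐ[k] D.KK)⁻¹ =
        (a' : D.KK ≃ₐ[k] D.KK) * (g0 : D.KK ≃ₐ[k] D.KK)⁻¹ := AlgEquiv.coe_toAlgHom_injective haa
    exact Subtype.ext (mul_right_cancel h1)
  rw [← Finset.card_image_of_injective _ hψ]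
  refine card_le_card p (D.Fm (p ^ j)) (D.H j) (D.norm_pow j) _ ?_
  intro t ht c hc
  obtain ⟨g, hg, rfl⟩ := Finset.mem_image.1 ht
  have e1 : φ g = φ g0 := by
    rw [(Finset.mem_filter.1 hg).2, (Finset.mem_filter.1 hg0).2]
  have e2 : (g : D.KK ≃ₐ[k] D.KK) ^ p ^ j = (g0 : D.KK ≃ₐ[k] D.KK) ^ p ^ j := congrArg Subtype.val e1
  obtain ⟨y, -, hy⟩ := D.mem_H.1 g.2
  obtain ⟨y0, -, hy0⟩ := D.mem_H.1 g0.2
  rw [hy, hy0, ← D.tau_nsmul, ← D.tau_nsmul, D.tau_eq_iff] at e2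
  have e3 : (g : D.KK ≃ₐ[k] D.KK) * (g0 : D.KK ≃ₐ[k] D.KK)⁻¹ = D.tau (0, y - y0) := by
    rw [hy, hy0, ← D.tau_neg, ← D.tau_add, Prod.neg_mk, Prod.mk_add_mk, neg_zero, add_zero,
      sub_eq_add_neg]
  obtain ⟨x, rfl⟩ := AlgHom.mem_fieldRange.1 hc
  show ((g : D.KK ≃ₐ[k] D.KK) * (g0 : D.KK ≃ₐ[k] D.KK)⁻¹ : D.KK ≃ₐ[k] D.KK) _ = _
  rw [e3, tau_apply]
  refine D.kp_trl_nm hp ?_ ?_ x
  · show p ^ j • (0 : Vt) ∈ D.Lam
    rw [smul_zero]; exact D.Lam.zero_mem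
  · show p ^ j • (y - y0) ∈ D.C
    rw [smul_sub]; exact e2.2

end TD

end M8.CP
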