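import Pool.Agent.Lib.MP_33b3f9_ag.M8.CP.Ord1
import Pool.Agent.Lib.MP_33b3f9_ag.M8.CP.Poly

/-!
The étale rank is four.
-/

set_option autoImplicit false
set_option linter.unusedSectionVars false

namespace M8.CP

open Polynomial Filter

namespace TD

variable {k : Type} [Field k] [IsAlgClosed k] {p : ℕ} [Fact p.Prime] [CharP k p]
  {Vt W ι : Type} [AddCommGroup Vt] [Module ℚ Vt] [AddCommGroup W] [Fintype ι]
  (D : TD k p Vt W ι)

variable {D}

/-- `poly_ord`; `Fr (r + 3) = Ka (pol (X ^ (r + 3)))` (`Ka_good`, `pol_X_pow`); `pol_add`, `Ka_add` twice;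
`Ka_pol_const` for `a * P`; `pol (C (p ^ r) * b) = pol b ∘ nm (p ^ r)`, `pol (X ^ n * c) = pol c ∘ sg^[n]`,
`Ka_comp`, `Fr_anti`. -/
theorem Fr_le_sup (h : D.Ord) (r t : ℕ) : D.Fr (r + 3) ≤ D.Fm (p ^ r) ⊔ D.Fr t := by
  obtain ⟨P, hP, h4, hl⟩ := h
  have hp : p.Prime := Fact.out
  obtain ⟨a, b, c, e⟩ := poly_ord hp P h4 hl r t
  have h1 : D.Ka (D.pol (a * P)) ≤ D.Fm (p ^ r) := fun x hx => by
    obtain ⟨u, rfl⟩ := D.Ka_pol_const (a := a * P) (fun y => by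
      have h0 : D.polV (a * P) = D.polV a * D.polV P := map_mul _ a P
      rw [h0, hP, mul_zero]
      exact D.Lam.zero_mem) hx
    exact IntermediateField.algebraMap_mem _ u
  have h2 : D.Ka (D.pol (Polynomial.C ((p : ℤ) ^ r) * b)) ≤ D.Fm (p ^ r) := by
    rw [mul_comm, D.pol_mul, ← Nat.cast_pow, D.pol_natCast]
    exact Ka_comp (D.inA_pol b) (D.good_nm (pow_ne_zero r hp.ne_zero))
  have h3 : D.Ka (D.pol (Polynomial.X ^ (r + 3 + t) * c)) ≤ D.Fr t := by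
    rw [mul_comm, D.pol_mul, D.pol_X_pow]
    exact (Ka_comp (D.inA_pol c) (D.good_sg _)).trans (D.Fr_anti (Nat.le_add_left t _))
  have h5 : D.Fr (r + 3) = D.Ka (D.pol (Polynomial.X ^ (r + 3))) := by
    rw [D.pol_X_pow, Ka_good (D.good_sg _)]
  rw [h5, e, D.pol_add]
  refine (Ka_add (D.inA_pol _) (D.inA_pol _)).trans (sup_le_sup ?_ h3)
  rw [D.pol_add]
  exact (Ka_add (D.inA_pol _) (D.inA_pol _)).trans (sup_le h1 h2)

/-- `finrank_le_mul`, `deg_Fm`, `deg_Fr` -/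
theorem card_H_ge (h : D.Ord) (r : ℕ) : p ^ (16 * r) ≤ p ^ (8 * (r + 3)) * Nat.card (D.H r) := by
  have hp : p.Prime := Fact.out
  have := D.fin_Fm (pow_ne_zero r hp.ne_zero)
  have := (D.deg_Fr (r + 3)).1
  have h1 := finrank_le_mul p (D.Fm (p ^ r)) (D.Fr (r + 3)) (D.H r) (D.H_fix r) (D.norm_pow r) D.Fr
    (fun _ _ hc => D.mem_Fr.1 hc) (Fr_le_sup h r)
  rw [D.deg_Fm (pow_ne_zero r hp.ne_zero), ← pow_mul, mul_comm r] at h1
  exact h1.trans (Nat.mul_le_mul_right _ (D.deg_Fr (r + 3)).2)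

/-- If `c < q` then `q ^ n > A * c ^ n` for large `n`. -/
theorem le_of_pow_le {q c A : ℕ} (h : ∀ n, q ^ n ≤ A * c ^ n) : q ≤ c := by
  by_contra hq
  rw [not_le] at hq
  rcases Nat.eq_zero_or_pos c with rfl | hc
  · have h1 := h 1
    simp only [pow_one, mul_zero] at h1
    omega
  have hc' : (0 : ℝ) < c := by exact_mod_cast hc
  obtain ⟨n, hn⟩ := pow_unbounded_of_one_lt (A : ℝ) (y := (q : ℝ) / c)
    ((one_lt_div hc').2 (by exact_mod_cast hq))
  rw [div_pow, lt_div_iff₀ (by positivity)] at hn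
  have h2 : (q : ℝ) ^ n ≤ A * c ^ n := by exact_mod_cast h n
  exact absurd hn (not_lt.2 h2)

/-- `card (H (n * j)) ≤ card (H j) ^ n` -/
theorem card_H (h : D.Ord) (j : ℕ) : Nat.card (D.H j) = p ^ (8 * j) := by
  have hp : p.Prime := Fact.out
  have hup : ∀ i, Nat.card (D.H i) ≤ p ^ (8 * i) := fun i => (D.card_H_le i).trans (D.deg_Fr i).2
  have hn : ∀ n, Nat.card (D.H (n * j)) ≤ Nat.card (D.H j) ^ n := by
    intro n
    induction n with
    | zero => simpa using hup (0 * j)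
    | succ n ih =>
      rw [Nat.succ_mul, pow_succ]
      exact (D.card_H_add _ _).trans (Nat.mul_le_mul_right _ ih)
  refine le_antisymm (hup j) (le_of_pow_le (A := p ^ 24) fun n => ?_)
  have h1 := (card_H_ge h (n * j)).trans (Nat.mul_le_mul_left _ (hn n))
  have e1 : p ^ (16 * (n * j)) = p ^ (8 * (n * j)) * (p ^ (8 * j)) ^ n := by ring
  have e2 : p ^ (8 * (n * j + 3)) = p ^ (8 * (n * j)) * p ^ 24 := by ring
  rw [e1, e2, mul_assoc] at h1
  exact Nat.le_of_mul_le_mul_left h1 (pow_pos hp.pos _)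

theorem finrank_Fr (h : D.Ord) (j : ℕ) : Module.finrank (D.Fr j) D.KK = p ^ (8 * j) := by
  exact le_antisymm (D.deg_Fr j).2 ((card_H h j).ge.trans (D.card_H_le j))

theorem card_C (h : D.Ord) (j : ℕ) :
    Nat.card {y : W // p ^ j • y = 0 ∧ y ∈ D.C} = p ^ (8 * j) := by
  have hp : p.Prime := Fact.out
  have h1 := D.card_mul j
  have e1 : p ^ (16 * j) = p ^ (8 * j) * p ^ (8 * j) := by ring
  rw [card_H h j, e1] at h1
  exact Nat.eq_of_mul_eq_mul_left (pow_pos hp.pos _) h1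

end TD

end M8.CP
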