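import Pool.Agent.Lib.MP_33b3f9_ag.M8.CP.QO2

/-!
The polar form with a constant point; pull back of classes.
-/

set_option autoImplicit false
set_option linter.unusedSectionVars false

namespace M8.CP

open Polynomial Filter

namespace TD

variable {k : Type} [Field k] [IsAlgClosed k] {p : ℕ} [Fact p.Prime] [CharP k p]
  {Vt W ι : Type} [AddCommGroup Vt] [Module ℚ Vt] [AddCommGroup W] [Fintype ι]
  (D : TD k p Vt W ι)

/-- classes of germs modulo rational functions -/
abbrev QT : Type := D.FFˣ ⧸ D.uO ⊤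

open Classical in
/-- the germ of `X0 ∘ a` as a unit -/
noncomputable def fu (a : Vt × W → Vt × W) : D.FFˣ :=
  if h : IsUnit (D.gm (D.X0 ∘ a)) then h.unit else 1

/-- pull back of units -/
noncomputable def pu (b : Vt × W → Vt × W) : D.FFˣ →* D.FFˣ :=
  Units.map (D.pull b : D.FF →* D.FF)

theorem uO_le_comap {b : Vt × W → Vt × W} (hb : D.Good b) :
    D.uO ⊤ ≤ (D.uO ⊤).comap (D.pu b) := by
  rintro u ⟨c, -, -, hc⟩
  refine ⟨D.kp b c, ValuationSubring.mem_top _, ValuationSubring.mem_top _, ?_⟩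
  rw [val_kp hb, ← hc]
  rfl

open Classical in
/-- pull back of classes -/
noncomputable def pq (b : Vt × W → Vt × W) : D.QT →* D.QT :=
  if h : D.Good b then QuotientGroup.map _ _ (D.pu b) (D.uO_le_comap h) else MonoidHom.id _

/-- the polar form with a constant point -/
noncomputable def bb (O : ValuationSubring D.KK) (a : Vt × W → Vt × W) (u : Vt × W) :
    D.FFˣ ⧸ D.uO O := D.qO O (a + fun _ => u) / D.qO O a

/-- the class of a `p`-power torsion point -/
noncomputable def Phi (y : W) : D.QT := D.bb ⊤ id (0, y)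

/-- a representative -/
noncomputable def phi (y : W) : D.FFˣ := D.fu (trl (0, y)) / D.fu id

variable {D} {O : ValuationSubring D.KK} {a a' b : Vt × W → Vt × W}

theorem val_pu (s : D.FFˣ) : (D.pu b s : D.FF) = D.pull b s := rfl

theorem val_fu (h : D.IsDom a) : (D.fu a : D.FF) = D.gm (D.X0 ∘ a) := by
  rw [fu, dif_pos (isDom_iff.1 h 1 D.X0 D.X0_mem D.X0_ne), IsUnit.unit_spec]

theorem pu_fu (ha : D.IsDom a) (hb : D.IsDom b) : D.pu b (D.fu a) = D.fu (a ∘ b) := by
  refine Units.ext ?_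
  rw [val_pu, val_fu ha, pull_gm hb, val_fu (ha.comp hb)]
  rfl

/-- `InA.ratio`, `isFr_top` -/
theorem qO_top (h : D.Good a) : D.qO ⊤ a = QuotientGroup.mk (D.fu a) := by
  refine (isFr_top fun i => ?_).qO_eq
  rw [val_fu h.1]
  exact h.2.ratio (isDom_iff.1 h.1 1 D.X0 D.X0_mem D.X0_ne) i

theorem pq_mk (hb : D.Good b) (s : D.FFˣ) :
    D.pq b (QuotientGroup.mk s) = QuotientGroup.mk (D.pu b s) := by
  rw [pq, dif_pos hb]
  rfl

/-- `IsFr.pull` -/
theorem pq_qO (ha : D.InA a) (hb : D.Good b) : D.pq b (D.qO ⊤ a) = D.qO ⊤ (a ∘ b) := by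
  obtain ⟨s, hs⟩ := ha.exists_fr ⊤
  rw [hs.qO_eq, (hs.pull hb).qO_eq, pq_mk hb]
  rfl

theorem mk_eq_top {s s' : D.FFˣ} : (QuotientGroup.mk s : D.QT) = QuotientGroup.mk s' ↔
    ∃ c : D.KK, (s : D.FF) = D.val c * s' := by
  rw [mk_eq_iff]
  refine exists_congr fun c => ⟨fun h => h.2.2.2, fun h =>
    ⟨ValuationSubring.mem_top _, ValuationSubring.mem_top _, fun h0 => s.ne_zero ?_, h⟩⟩
  rw [h, h0, map_zero, zero_mul]

theorem mk_eq_one {s : D.FFˣ} : (QuotientGroup.mk s : D.QT) = 1 ↔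
    ∃ c : D.KK, (s : D.FF) = D.val c := by
  rw [← QuotientGroup.mk_one, mk_eq_top]
  simp only [Units.val_one, mul_one]

theorem phi_polar (hO : D.Over O) (ha : D.InA a) (u : Vt × W) :
    D.bb O a u = polar (fun c : D.AA => D.qO O c) ⟨a, ha⟩ ⟨fun _ => u, D.inA_const u⟩ := by
  change _ = D.qO O (a + fun _ => u) / (D.qO O a * D.qO O fun _ => u)
  rw [qO_const hO]
  exact congrArg (D.qO O (a + fun _ => u) / ·) (mul_one (D.qO O a)).symm

/-- `bb O a u = polar q a (const u)` for `q = qO O` on `AA` (`qO_const`); `u = u' + u'`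
(`nsmul_surj`); `IsQuad.polar_add_two`. -/
theorem bb_add_left (hO : D.Over O) (ha : D.InA a) (ha' : D.InA a') (u : Vt × W) :
    D.bb O (a + a') u = D.bb O a u * D.bb O a' u := by
  obtain ⟨u', rfl⟩ := D.nsmul_surj two_ne_zero u
  rw [phi_polar hO ha, phi_polar hO ha', phi_polar hO (ha.add_sub ha').1, two_nsmul]
  exact (isQuad hO).polar_add_two ⟨a, ha⟩ ⟨a', ha'⟩ ⟨fun _ => u', D.inA_const u'⟩

/-- `IsQuad.polar_two_add` -/
theorem bb_add_right (hO : D.Over O) (ha : D.InA a) (u v : Vt × W) :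
    D.bb O a (u + v) = D.bb O a u * D.bb O a v := by
  obtain ⟨u', rfl⟩ := D.nsmul_surj two_ne_zero u
  obtain ⟨v', rfl⟩ := D.nsmul_surj two_ne_zero v
  rw [phi_polar hO ha, phi_polar hO ha, phi_polar hO ha, two_nsmul, two_nsmul]
  exact (isQuad hO).polar_two_add ⟨a, ha⟩ ⟨fun _ => u', D.inA_const u'⟩
    ⟨fun _ => v', D.inA_const v'⟩

theorem bb_zero_right (O : ValuationSubring D.KK) (a : Vt × W → Vt × W) : D.bb O a 0 = 1 := by
  have h : (a + fun _ => (0 : Vt × W)) = a := add_zero a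
  rw [bb, h, div_self']

theorem bb_nsmul_right (hO : D.Over O) (ha : D.InA a) (n : ℕ) (u : Vt × W) :
    D.bb O a (n • u) = D.bb O a u ^ n := by
  induction n with
  | zero => rw [zero_nsmul, bb_zero_right, pow_zero]
  | succ n ih => rw [succ_nsmul, bb_add_right hO ha, ih, pow_succ]

theorem bb_const (hO : D.Over O) (v u : Vt × W) : D.bb O (fun _ => v) u = 1 := by
  change D.qO O (fun _ => v + u) / D.qO O (fun _ => v) = 1
  rw [qO_const hO, qO_const hO, div_one]

theorem bb_sg (ha : D.InA a) (u : Vt × W) : D.bb O (D.sg ∘ a) (D.sg u) = D.bb O a u ^ p := by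
  have h : (D.sg ∘ a + fun _ => D.sg u) = D.sg ∘ (a + fun _ => u) :=
    funext fun z => (map_add D.sg (a z) u).symm
  rw [bb, bb, h, qO_sg (ha.add_sub (D.inA_const u)).1, qO_sg ha]
  exact (div_pow (D.qO O (a + fun _ => u)) (D.qO O a) p).symm

variable (D)

theorem mk_phi (y : W) : (QuotientGroup.mk (D.phi y) : D.QT) = D.Phi y := by
  rw [phi, QuotientGroup.mk_div, ← qO_top (D.good_trl _), ← qO_top D.good_id]
  rfl

theorem Phi_add (y y' : W) : D.Phi (y + y') = D.Phi y * D.Phi y' := by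
  rw [Phi, Phi, Phi, ← bb_add_right D.over_top D.inA_id, Prod.mk_add_mk, add_zero]

theorem Phi_sub (y y' : W) : D.Phi (y - y') = D.Phi y / D.Phi y' := by
  rw [eq_div_iff_mul_eq', ← Phi_add, sub_add_cancel]

theorem Phi_pow {n : ℕ} {y : W} (h : n • y = 0) : D.Phi y ^ n = 1 := by
  rw [Phi, ← bb_nsmul_right D.over_top D.inA_id, Prod.smul_mk, h, smul_zero]
  exact bb_zero_right _ _

theorem Phi_of_mem {y : W} (h : y ∈ D.C) : D.Phi y = 1 := by
  rw [Phi, bb, qO_congr (a := id) (b := id + fun _ => (0, y)) fun i z => h 1 (D.X i) (D.X_mem i) z,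
    div_self']

theorem pq_Phi (hb : D.Good b) (y : W) : D.pq b (D.Phi y) = D.bb ⊤ b (0, y) := by
  rw [Phi, bb, _root_.map_div, pq_qO (D.inA_id.add_sub (D.inA_const _)).1 hb, pq_qO D.inA_id hb]
  rfl

theorem pq_trl_Phi (u : Vt × W) (y : W) : D.pq (trl u) (D.Phi y) = D.Phi y := by
  rw [D.pq_Phi (D.good_trl u)]
  change D.bb ⊤ (id + fun _ => u) (0, y) = _
  rw [bb_add_left D.over_top D.inA_id (D.inA_const u), bb_const D.over_top]
  exact mul_one (D.Phi y)

theorem pq_neg_Phi (y : W) : D.pq (fun z => -z) (D.Phi y) = (D.Phi y)⁻¹ := by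
  have h : ((fun z => -z) + id : Vt × W → Vt × W) = fun _ => 0 := funext fun z => neg_add_cancel z
  rw [D.pq_Phi D.good_neg, eq_inv_iff_mul_eq_one, Phi,
    ← bb_add_left D.over_top D.good_neg.2 D.inA_id, h, bb_const D.over_top]

theorem pq_nm_Phi {c : ℕ} (hc : c ≠ 0) (y : W) :
    D.pq (nm c : Vt × W → Vt × W) (D.Phi y) = D.Phi y ^ c := by
  rw [D.pq_Phi (D.good_nm hc)]
  clear hc
  induction c with
  | zero =>
    have h : (nm 0 : Vt × W → Vt × W) = fun _ => 0 := funext fun z => zero_nsmul z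
    rw [h, bb_const D.over_top, pow_zero]
  | succ c ih =>
    have h : (nm (c + 1) : Vt × W → Vt × W) = nm c + id := funext fun z => succ_nsmul z c
    have h1 : D.InA (nm c) := D.AA.nsmul_mem (x := id) D.inA_id c
    rw [h, bb_add_left D.over_top h1 D.inA_id, ih, pow_succ, Phi]

/-- `adj` with `β a y = bb ⊤ (pol a) (0, y)`, `s = sW`, `a = 1` -/
theorem bb_pol (δ : ℤ[X]) (m : ℕ) (hm : δ.natDegree ≤ m) (y : W) :
    D.bb ⊤ (D.pol δ) (0, D.polW (Polynomial.X ^ m) y) = D.Phi (D.polW (recip p m δ) y) := by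
  have h := adj p (D.sW.toAddMonoidHom.toIntLinearMap : Module.End ℤ W)
    (fun a y => D.bb ⊤ (D.pol a) (0, y))
    (fun a a' y => by rw [pol_add, bb_add_left D.over_top (D.inA_pol a) (D.inA_pol a')])
    (fun a y y' => by rw [← bb_add_right D.over_top (D.inA_pol a), Prod.mk_add_mk, add_zero])
    (fun a y => by
      rw [pol_mul, pol_X, ← bb_sg (D.inA_pol a), sg_apply, map_zero]
      rfl) δ m hm 1 y
  rw [mul_one, pol_one] at h
  rw [polW, map_pow, aeval_X]
  exact h

end TD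

end M8.CP
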