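import Pool.Agent.Lib.MP_33b3f9_ag.M8.CP.Defs

/-!
Quadratic maps into a commutative group (written multiplicatively).
-/

set_option autoImplicit false
set_option linter.unusedSectionVars false

namespace M8.CP

open Polynomial Filter

variable {A G : Type} [AddCommGroup A] [CommGroup G]

/-- the parallelogram law -/
structure IsQuad (q : A → G) : Prop where
  zero : q 0 = 1
  par : ∀ a b, q (a + b) * q (a - b) = q a ^ 2 * q b ^ 2

/-- the polar form -/
def polar (q : A → G) (a b : A) : G := q (a + b) / (q a * q b)

theorem polar_comm (q : A → G) (a b : A) : polar q a b = polar q b a := by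
  rw [polar, polar, add_comm, mul_comm]

namespace IsQuad

variable {q : A → G}

theorem quad_par (h : IsQuad q) (a b : A) :
    Additive.ofMul (q (a + b)) + Additive.ofMul (q (a - b)) =
      2 • Additive.ofMul (q a) + 2 • Additive.ofMul (q b) :=
  congrArg Additive.ofMul (h.par a b)

/-- `par 0 a`. -/
theorem neg (h : IsQuad q) (a : A) : q (-a) = q a := by
  have e := h.par 0 a
  rw [zero_add, zero_sub, h.zero, one_pow, one_mul, sq] at e
  exact mul_left_cancel e

/-- Two step induction with `par (n • a) a`. -/
theorem nsmul (h : IsQuad q) (n : ℕ) (a : A) : q (n • a) = q a ^ (n ^ 2) := by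
  induction n using Nat.twoStepInduction with
  | zero => simp [h.zero]
  | one => simp
  | more n h0 h1 =>
    have e := h.par ((n + 1) • a) a
    rw [← succ_nsmul, succ_nsmul a n, add_sub_cancel_right, ← succ_nsmul, h0, h1, ← pow_mul,
      ← pow_add] at e
    refine mul_right_cancel (b := q a ^ n ^ 2) (e.trans ?_)
    rw [← pow_add]
    congr 1
    ring

theorem zsmul (h : IsQuad q) (c : ℤ) (a : A) : q (c • a) = q a ^ (c.natAbs ^ 2) := by
  obtain ⟨n, rfl | rfl⟩ := c.eq_nat_or_neg
  · rw [natCast_zsmul, h.nsmul, Int.natAbs_natCast]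
  · rw [neg_smul, h.neg, natCast_zsmul, h.nsmul, Int.natAbs_neg, Int.natAbs_natCast]

theorem quad_two (h : IsQuad q) (a : A) : q (a + a) = q a ^ 4 := by
  rw [← two_nsmul, h.nsmul]
  rfl

theorem quad_add (h : IsQuad q) (a a' b : A) :
    polar q (a + a') (b + b) = polar q a b ^ 2 * polar q a' b ^ 2 := by
  have e1 := h.quad_par (a + b) (a' + b)
  have e2 := h.quad_par a a'
  rw [add_sub_add_right_eq_sub, add_add_add_comm] at e1
  apply Additive.ofMul.injective
  simp only [polar, h.quad_two, ofMul_mul, ofMul_div, ofMul_pow]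
  linear_combination (norm := abel1) e1 - e2

/-- Divide `par (a + b) (a' + b)` by `par a a'` and use `q (b + b) = q b ^ 4`:
`polar (a + a') (b + b) = polar a b ^ 2 * polar a' b ^ 2`; the case `a' = 0` gives `polar_two`. -/
theorem polar_two (h : IsQuad q) (a b : A) : polar q a (b + b) = polar q a b ^ 2 := by
  have e := h.quad_add a 0 b
  rwa [add_zero, polar.eq_1 q 0 b, zero_add, h.zero, one_mul, div_self', one_pow, mul_one] at e

theorem polar_add_two (h : IsQuad q) (a a' b : A) :
    polar q (a + a') (b + b) = polar q a (b + b) * polar q a' (b + b) := by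
  rw [h.quad_add, h.polar_two, h.polar_two]

/-- `polar a ((b + b) + (b' + b')) = polar a (b + b') ^ 2 = polar (a + a) (b + b')`, use
`polar_comm` and `polar_add_two`. -/
theorem polar_two_add (h : IsQuad q) (a b b' : A) :
    polar q a ((b + b) + (b' + b')) = polar q a (b + b) * polar q a (b' + b') := by
  rw [add_add_add_comm, h.polar_two, polar_comm, ← h.polar_two, h.quad_add, h.polar_two,
    h.polar_two, polar_comm q b, polar_comm q b']

theorem polar_sq_self (h : IsQuad q) (a : A) : polar q a a ^ 2 = q a ^ 4 := by
  rw [polar, h.quad_two, ← sq, show q a ^ 4 = q a ^ 2 * q a ^ 2 by rw [← pow_add],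
    mul_div_cancel_right, sq (q a ^ 2)]

end IsQuad

end M8.CP
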