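import Pool.Agent.Lib.MP_33b3f9_ag.M8.CP.Div

/-!
The quotient is a similitude.
-/

set_option autoImplicit false
set_option linter.unusedSectionVars false

namespace M8.CP

open Polynomial Filter

namespace TD

variable {k : Type} [Field k] [IsAlgClosed k] {p : ℕ} [Fact p.Prime] [CharP k p]
  {Vt W ι : Type} [AddCommGroup Vt] [Module ℚ Vt] [AddCommGroup W] [Fintype ι]
  (D : TD k p Vt W ι)

theorem g0_add (δ : ℤ[X]) (j : ℕ) (x y : Vt) : D.g0 δ j (x + y) = D.g0 δ j x + D.g0 δ j y := by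
  rw [g0, g0, g0, map_add, smul_add]

theorem g0_nsmul (δ : ℤ[X]) (j n : ℕ) (x : Vt) : D.g0 δ j (n • x) = n • D.g0 δ j x := by
  rw [g0, g0, map_nsmul, smul_comm]

theorem sim_p_ne (j : ℕ) : (p : ℚ) ^ j ≠ 0 :=
  pow_ne_zero _ (Nat.cast_ne_zero.2 (Fact.out : p.Prime).ne_zero)

theorem sim_pow_g0 (δ : ℤ[X]) (j : ℕ) (x : Vt) : p ^ j • D.g0 δ j x = D.polV δ x := by
  rw [g0, ← Nat.cast_smul_eq_nsmul ℚ, Nat.cast_pow, smul_smul, mul_inv_cancel₀ (sim_p_ne j),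
    one_smul]

theorem sim_mul (a b : ℤ[X]) (x : Vt) : D.polV (a * b) x = D.polV a (D.polV b x) := by
  rw [polV, map_mul]
  rfl

theorem sim_zero (x : Vt) : D.polV (Polynomial.X ^ 0) x = x := by
  rw [pow_zero, polV, map_one]
  rfl

theorem sim_succ (m : ℕ) (x : Vt) :
    D.polV (Polynomial.X ^ (m + 1)) x = D.sV (D.polV (Polynomial.X ^ m) x) := by
  rw [pow_succ', sim_mul]
  conv_lhs => rw [polV, aeval_X]
  rfl

theorem sim_eps (m : ℕ) (x y : Vt) :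
    D.eps (D.polV (Polynomial.X ^ m) x) (D.polV (Polynomial.X ^ m) y) = D.eps x y ^ p ^ m := by
  induction m with
  | zero => rw [sim_zero, sim_zero, pow_zero, pow_one]
  | succ m ih => rw [sim_succ, sim_succ, D.eps_s, ih, ← pow_mul, pow_succ]

theorem sim_lam (m : ℕ) (x : Vt) : D.polV (Polynomial.X ^ m) x ∈ D.Lam ↔ x ∈ D.Lam := by
  induction m with
  | zero => rw [sim_zero]
  | succ m ih => rw [sim_succ, D.sV_lam, ih]

theorem sim_surj (m : ℕ) (x : Vt) : ∃ y, D.polV (Polynomial.X ^ m) y = x := by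
  induction m generalizing x with
  | zero => exact ⟨x, D.sim_zero x⟩
  | succ m ih =>
    obtain ⟨y, hy⟩ := ih (D.sV.symm x)
    exact ⟨y, by rw [sim_succ, hy, AddEquiv.apply_symm_apply]⟩

theorem sim_C {n : ℕ} {f : Vt × W → k} (hf : f ∈ D.G n) {u v : Vt × W} (h1 : u.1 = v.1)
    (h2 : u.2 - v.2 ∈ D.C) : f u = f v := by
  rw [← h2 n f hf v]
  congr 1
  ext <;> simp [h1]

/-- `lam_pow`, `polV_lam` -/
theorem g0_lam (δ : ℤ[X]) (j : ℕ) {x : Vt} (hx : x ∈ D.Lam) : D.g0 δ j x ∈ D.Lam := by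
  apply D.lam_pow j
  rw [sim_pow_g0]
  exact D.polV_lam δ hx

variable {D} {δ : ℤ[X]} {m j d : ℕ} {γ : Vt × W → Vt × W}

theorem Hyp.sim_nrm (h : D.Hyp δ m j d) (y : Vt) :
    D.polV (recip p m δ) (D.polV δ y) = (p ^ (2 * j) * d) • D.polV (Polynomial.X ^ m) y := by
  rw [← sim_mul, mul_comm, h.nrm, sim_mul]
  conv_lhs => rw [polV, aeval_C]
  rw [← natCast_zsmul, Module.algebraMap_end_apply]
  push_cast
  rfl

/-- `eps_adj` at `(polV (X ^ m) x, polV δ y)` and `eps_s`: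
`eps (δ x) (δ y) ^ p ^ m = eps x y ^ (p ^ m p ^ (2 j) d)`; the Frobenius of `k` is injective. -/
theorem Hyp.eps_g0 (h : D.Hyp δ m j d) (x y : Vt) :
    D.eps (D.g0 δ j x) (D.g0 δ j y) = D.eps x y ^ d := by
  have h1 := D.eps_adj δ m h.deg (D.polV (Polynomial.X ^ m) x) (D.polV δ y)
  rw [h.sim_nrm, D.eps_nsmul_right, sim_eps, ← sim_mul, mul_comm δ, sim_mul, sim_eps,
    ← sim_pow_g0 D δ j x, ← sim_pow_g0 D δ j y, D.eps_nsmul_left, D.eps_nsmul_right] at h1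
  apply (iterateFrobenius k p (j + j + m)).injective
  rw [iterateFrobenius_def, iterateFrobenius_def, pow_add, pow_add, pow_mul, pow_mul, h1,
    ← pow_mul, ← pow_mul]
  congr 1
  ring

/-- `x' = d⁻¹ • g0 (recip p m δ) j x''` with `polV (X ^ m) x'' = x` (`sV_lam`) -/
theorem Hyp.exists_pre (h : D.Hyp δ m j d) {N : ℕ} {x : Vt} (hx : N • x ∈ D.Lam) :
    ∃ x', D.g0 δ j x' = x ∧ (N * d) • x' ∈ D.Lam := by
  obtain ⟨y, rfl⟩ := D.sim_surj m x
  have hd : (d : ℚ) ≠ 0 := Nat.cast_ne_zero.2 fun e => h.cop (e ▸ dvd_zero p)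
  refine ⟨(d : ℚ)⁻¹ • D.g0 (recip p m δ) j y, ?_, ?_⟩
  · rw [g0, g0, D.polV_qsmul, D.polV_qsmul, ← sim_mul, mul_comm, sim_mul, h.sim_nrm,
      ← Nat.cast_smul_eq_nsmul ℚ, smul_smul, smul_smul, smul_smul]
    have hp := sim_p_ne (p := p) j
    rw [show ((p : ℚ) ^ j)⁻¹ * (d : ℚ)⁻¹ * ((p : ℚ) ^ j)⁻¹ * ((p ^ (2 * j) * d : ℕ) : ℚ) = 1 by
      push_cast
      rw [two_mul, pow_add]
      field_simp, one_smul]
  · rw [mul_smul, ← Nat.cast_smul_eq_nsmul ℚ d, smul_smul, mul_inv_cancel₀ hd, one_smul,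
      ← g0_nsmul]
    apply D.g0_lam
    rwa [← map_nsmul, sim_lam] at hx

theorem IsGam.apply_add (g : D.IsGam δ j γ) {n : ℕ} {f : Vt × W → k} (hf : f ∈ D.G n)
    (z : Vt × W) (x : Vt) : f (γ (z + (x, 0))) = f (γ z + (D.g0 δ j x, 0)) := by
  refine D.sim_C hf ?_ ?_
  · rw [g.fst, Prod.fst_add, Prod.fst_add, g0_add, g.fst]
  · have := D.C.add_mem (g.add z (x, 0)) (g.vt x)
    rwa [← sub_sub, sub_add_cancel, ← add_zero (γ z).2] at this

theorem IsGam.apply_vt (g : D.IsGam δ j γ) {n : ℕ} {f : Vt × W → k} (hf : f ∈ D.G n)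
    (x : Vt) : f (γ (x, 0)) = f (D.g0 δ j x, 0) :=
  D.sim_C hf (g.fst _) (by rw [sub_zero]; exact g.vt x)

theorem IsGam.apply_nsmul (g : D.IsGam δ j γ) {n : ℕ} {f : Vt × W → k} (hf : f ∈ D.G n)
    (c : ℕ) (z : Vt × W) : f (γ (c • z)) = f (c • γ z) := by
  refine D.sim_C hf ?_ ?_
  · rw [g.fst, Prod.smul_fst, Prod.smul_fst, g0_nsmul, g.fst]
  · rw [Prod.smul_snd]
    induction c with
    | zero =>
      rw [zero_nsmul, zero_nsmul, sub_zero]
      exact g.vt 0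
    | succ c ih =>
      have := D.C.add_mem (g.add (c • z) z) ih
      rwa [show (γ (c • z + z)).2 - ((γ (c • z)).2 + (γ z).2) + ((γ (c • z)).2 - c • (γ z).2) =
        (γ (c • z + z)).2 - (c • (γ z).2 + (γ z).2) by abel, ← succ_nsmul, ← succ_nsmul] at this

theorem IsGam.apply_neg (g : D.IsGam δ j γ) {n : ℕ} {f : Vt × W → k} (hf : f ∈ D.G n)
    (z : Vt × W) : f (γ (-z)) = f (-γ z) := by
  refine D.sim_C hf ?_ ?_
  · rw [g.fst, Prod.fst_neg, Prod.fst_neg, g.fst, g0, g0, map_neg, smul_neg]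
  · have h1 := g.add (-z) z
    rw [neg_add_cancel] at h1
    have := D.C.sub_mem (g.vt 0) h1
    rwa [← Prod.zero_eq_mk, sub_sub_cancel, ← sub_neg_eq_add] at this

theorem IsGam.U_comp (g : D.IsGam δ j γ) (h : D.Hyp δ m j d) {n : ℕ} {f : Vt × W → k}
    (hf : f ∈ D.G n) (x : Vt) :
    Uop D.eps n (D.g0 δ j x, 0) f ∘ γ = Uop D.eps (n * d) (x, 0) (f ∘ γ) := by
  funext z
  simp only [Function.comp, Uop]
  rw [g.apply_add hf, g.fst, h.eps_g0, ← pow_mul]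
  congr 2
  ring

end TD

end M8.CP
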